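import Pool.Agent.Q247194.Basin

set_option autoImplicit false

namespace Pool.Agent.Results.MP_247194_an.BasinSection

open Filter Topology
open Pool.Agent.Q247194.Basin

/-- If `k + 1` and `l + 1` have the same `2`-adic valuation, the basin of `√2` is the level set of a
continuous homogeneous function, and meets every orbit of the scaling group in one point. -/
theorem result (k l : ℕ) (h : padicValNat 2 (k + 1) = padicValNat 2 (l + 1)) :
    (∀ v : Fin (max k l + 1) → ℝ, (∀ i, 0 < v i) →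
      ∃! ρ : Fin (gg k l) → ℝ, (∀ r, 0 < ρ r) ∧ scale k l ρ v ∈ Basin k l) ∧
    ∃ C : (Fin (max k l + 1) → ℝ) → Fin (gg k l) → ℝ,
      ContinuousOn C {v | ∀ i, 0 < v i} ∧
      (∀ v, (∀ i, 0 < v i) → ∀ r, 0 < C v r) ∧
      (∀ v, (∀ i, 0 < v i) → ∀ ρ : Fin (gg k l) → ℝ, (∀ r, 0 < ρ r) →
        ∀ r, C (scale k l ρ v) r = ρ r * C v r) ∧
      (∀ v, v ∈ Basin k l ↔ (∀ i, 0 < v i) ∧ ∀ r, C v r = √2) ∧
      ∀ x : ℕ → ℝ, Solution k l x → (∀ i ≤ max k l, 0 < x i) → ∀ r : Fin (gg k l),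
        Tendsto (fun j => x (r + gg k l * (2 * j))) atTop (𝓝 (C (fun i => x i) r)) ∧
        Tendsto (fun j => x (r + gg k l * (2 * j + 1))) atTop (𝓝 (2 / C (fun i => x i) r)) :=
  (basin_structure k l).2 h

end Pool.Agent.Results.MP_247194_an.BasinSection
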