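import Pool.Agent.Q247194.Basin

set_option autoImplicit false

namespace Pool.Agent.Results.MP_247194_an.NoPolynomialDescription

open Filter Topology MvPolynomial
open Pool.Agent.Q247194.Basin

/-- clearing denominators -/
lemma clear {σ τ : Type} (A : σ → MvPolynomial τ ℝ) (D : MvPolynomial τ ℝ) (P : MvPolynomial σ ℝ) :
    ∃ s : ℕ, ∃ N : MvPolynomial τ ℝ, ∀ z : τ → ℝ, eval z D ≠ 0 →
      eval z N = (eval z D) ^ s * eval (fun i => eval z (A i) / eval z D) P := by
  have key : ∃ S : ℕ, ∀ s, S ≤ s → ∃ N : MvPolynomial τ ℝ, ∀ z : τ → ℝ, eval z D ≠ 0 →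
      eval z N = (eval z D) ^ s * eval (fun i => eval z (A i) / eval z D) P := by
    induction P using MvPolynomial.induction_on with
    | C a => exact ⟨0, fun s _ => ⟨D ^ s * C a, fun z _ => by simp⟩⟩
    | add p q hp hq =>
      obtain ⟨S1, h1⟩ := hp
      obtain ⟨S2, h2⟩ := hq
      refine ⟨max S1 S2, fun s hs => ?_⟩
      obtain ⟨N1, hN1⟩ := h1 s (le_trans (le_max_left _ _) hs)
      obtain ⟨N2, hN2⟩ := h2 s (le_trans (le_max_right _ _) hs)
      exact ⟨N1 + N2, fun z hz => by rw [map_add, hN1 z hz, hN2 z hz, map_add, mul_add]⟩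
    | mul_X p i hp =>
      obtain ⟨S, h⟩ := hp
      refine ⟨S + 1, fun s hs => ?_⟩
      obtain ⟨s', rfl⟩ : ∃ s', s = s' + 1 := ⟨s - 1, by omega⟩
      obtain ⟨N, hN⟩ := h s' (by omega)
      refine ⟨N * A i, fun z hz => ?_⟩
      rw [map_mul, hN z hz, map_mul, eval_X, pow_succ]
      field_simp
  obtain ⟨S, hS⟩ := key
  exact ⟨S, hS S le_rfl⟩

lemma zero_of_open {n : ℕ} {m : MvPolynomial (Fin n) ℝ} {U : Set (Fin n → ℝ)} (hU : IsOpen U)
    (hne : U.Nonempty) (h : ∀ z ∈ U, eval z m = 0) : m = 0 := by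
  obtain ⟨a, ha⟩ := hne
  obtain ⟨I, u, hu, hsub⟩ := isOpen_pi_iff.1 hU a ha
  classical
  refine MvPolynomial.funext_set (fun i => if i ∈ I then u i else Set.univ) ?_ ?_
  · intro i
    by_cases hi : i ∈ I
    · simp only [if_pos hi]
      exact infinite_of_mem_nhds (a i) ((hu i hi).1.mem_nhds (hu i hi).2)
    · simp only [if_neg hi]
      exact Set.infinite_univ
  · intro x hx
    rw [map_zero]
    refine h x (hsub fun i hi => ?_)
    have := hx i trivial
    simpa only [if_pos (Finset.mem_coe.1 hi)] using this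

variable {k l : ℕ}

/-- the last index -/
def iL (k l : ℕ) : Fin (max k l + 1) := ⟨max k l, by omega⟩
/-- the first index -/
def i0 (k l : ℕ) : Fin (max k l + 1) := ⟨0, by omega⟩
/-- the index of the shorter delay -/
def iD (k l : ℕ) : Fin (max k l + 1) := ⟨max k l - min k l, by omega⟩
/-- the index before -/
def iP (k l : ℕ) : Fin (max k l + 1) := ⟨max k l - min k l - 1, by omega⟩

/-- the denominator of `E` -/
def DE (v : Fin (max k l + 1) → ℝ) : ℝ := v (iL k l) * v (iP k l) - 1

/-- the backward map -/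
noncomputable def E (v : Fin (max k l + 1) → ℝ) : Fin (max k l + 1) → ℝ := fun i =>
  if (i : ℕ) = 0 then v (iP k l) / DE v else v ⟨(i : ℕ) - 1, by have := i.2; omega⟩

/-- the forward map -/
noncomputable def G (v : Fin (max k l + 1) → ℝ) : Fin (max k l + 1) → ℝ := fun i =>
  if h : (i : ℕ) = max k l then 1 / v (iD k l) + 1 / v (i0 k l)
  else v ⟨(i : ℕ) + 1, by have := i.2; omega⟩

/-- the positive orthant -/
def Q (k l : ℕ) : Set (Fin (max k l + 1) → ℝ) := {v | ∀ i, 0 < v i}

lemma Q_open : IsOpen (Q k l) := by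
  have : Q k l = ⋂ i, {v | 0 < v i} := by
    ext v
    simp [Q]
  rw [this]
  exact isOpen_iInter_of_finite fun i => isOpen_lt continuous_const (continuous_apply i)

lemma Q_ne : (Q k l).Nonempty := ⟨fun _ => 1, fun _ => one_pos⟩

lemma GE (hkl : k ≠ l) {v : Fin (max k l + 1) → ℝ} (hP : v (iP k l) ≠ 0) (hD : DE v ≠ 0) :
    G (E v) = v := by
  funext i
  by_cases hi : (i : ℕ) = max k l
  · simp only [G, dif_pos hi]
    have e1 : E v (iD k l) = v (iP k l) := by
      have h1 : ((iD k l : Fin (max k l + 1)) : ℕ) ≠ 0 := by simp only [iD]; omega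
      simp only [E, if_neg h1]
      rfl
    have e2 : E v (i0 k l) = v (iP k l) / DE v := by
      simp [E, i0]
    rw [e1, e2, one_div_div]
    have e3 : v i = v (iL k l) := by
      congr 1
      exact Fin.ext hi
    rw [e3, ← add_div, div_eq_iff hP]
    unfold DE
    ring
  · simp only [G, dif_neg hi, E]
    have h1 : (i : ℕ) + 1 ≠ 0 := by omega
    simp only [if_neg h1]
    congr 1

lemma EG (hkl : k ≠ l) {v : Fin (max k l + 1) → ℝ} (h0 : v (i0 k l) ≠ 0) (hD : v (iD k l) ≠ 0) :
    E (G v) = v ∧ DE (G v) = v (iD k l) / v (i0 k l) := by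
  have e1 : G v (iP k l) = v (iD k l) := by
    have h1 : ¬ ((iP k l : Fin (max k l + 1)) : ℕ) = max k l := by simp only [iP]; omega
    simp only [G, dif_neg h1]
    congr 1
    apply Fin.ext
    simp only [iP, iD]
    omega
  have e2 : G v (iL k l) = 1 / v (iD k l) + 1 / v (i0 k l) := by
    simp [G, iL]
  have e3 : DE (G v) = v (iD k l) / v (i0 k l) := by
    unfold DE
    rw [e1, e2]
    field_simp
    ring
  refine ⟨?_, e3⟩
  funext i
  by_cases hi : (i : ℕ) = 0
  · simp only [E, if_pos hi]
    rw [e1, e3]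
    have e4 : v i = v (i0 k l) := by
      congr 1
      exact Fin.ext hi
    rw [e4]
    field_simp
  · simp only [E, if_neg hi, G]
    have h1 : ¬ (i : ℕ) - 1 = max k l := by have := i.2; omega
    simp only [dif_neg h1]
    congr 1
    apply Fin.ext
    show (i : ℕ) - 1 + 1 = i
    omega

/-- all entries but the last are nonzero -/
def NZ (v : Fin (max k l + 1) → ℝ) : Prop :=
  ∀ i : Fin (max k l + 1), (i : ℕ) ≠ max k l → v i ≠ 0

lemma NZ.P (hkl : k ≠ l) {v : Fin (max k l + 1) → ℝ} (h : NZ v) : v (iP k l) ≠ 0 :=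
  h _ (by simp only [iP]; omega)

lemma NZ_E (hkl : k ≠ l) {w : Fin (max k l + 1) → ℝ} (h : NZ w) (hD : DE w ≠ 0)
    (i : Fin (max k l + 1)) : E w i ≠ 0 := by
  by_cases hi : (i : ℕ) = 0
  · simp only [E, if_pos hi]
    exact div_ne_zero (h.P hkl) hD
  · simp only [E, if_neg hi]
    exact h _ (by have := i.2; show (i : ℕ) - 1 ≠ max k l; omega)

/-- The backward orbit of `v` is regular up to time `n`. -/
def Good : ℕ → (Fin (max k l + 1) → ℝ) → Prop
  | 0, v => NZ v
  | n + 1, v => Good n v ∧ DE (E^[n] v) ≠ 0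

lemma Good.nz (hkl : k ≠ l) {n : ℕ} {v : Fin (max k l + 1) → ℝ} (h : Good n v) : NZ (E^[n] v) := by
  induction n with
  | zero => exact h
  | succ n ih =>
    rw [Function.iterate_succ_apply']
    exact fun i _ => NZ_E hkl (ih h.1) h.2 i

lemma DE_cont : Continuous (DE : (Fin (max k l + 1) → ℝ) → ℝ) := by
  unfold DE
  fun_prop

lemma E_cont : ContinuousOn (E : (Fin (max k l + 1) → ℝ) → _) {w | DE w ≠ 0} := by
  refine continuousOn_pi.2 fun i => ?_
  by_cases hi : (i : ℕ) = 0
  · simp only [E, if_pos hi]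
    exact (continuous_apply _).continuousOn.div DE_cont.continuousOn fun _ h => h
  · simp only [E, if_neg hi]
    exact (continuous_apply _).continuousOn

lemma good_open (n : ℕ) : IsOpen {z : Fin (max k l + 1) → ℝ | Good n z} ∧
    ContinuousOn (E^[n]) {z : Fin (max k l + 1) → ℝ | Good n z} := by
  induction n with
  | zero =>
    constructor
    · have : {z : Fin (max k l + 1) → ℝ | Good 0 z} =
          ⋂ i : Fin (max k l + 1), {z | (i : ℕ) ≠ max k l → z i ≠ 0} := by
        ext v
        simp [Good, NZ]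
      rw [this]
      refine isOpen_iInter_of_finite fun i => ?_
      by_cases hi : (i : ℕ) = max k l
      · simp [hi]
      · simp only [ne_eq, hi, not_false_eq_true, true_implies]
        exact isOpen_ne_fun (continuous_apply i) continuous_const
    · simpa using continuousOn_id
  | succ n ih =>
    have h1 : {z : Fin (max k l + 1) → ℝ | Good (n + 1) z} =
        {z | Good n z} ∩ E^[n] ⁻¹' {w | DE w ≠ 0} := rfl
    refine ⟨?_, ?_⟩
    · rw [h1]
      exact ih.2.isOpen_inter_preimage ih.1 (isOpen_ne_fun DE_cont continuous_const)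
    · have : E^[n + 1] = (E : (Fin (max k l + 1) → ℝ) → _) ∘ E^[n] := Function.iterate_succ' E n
      rw [this, h1]
      exact E_cont.comp (ih.2.mono Set.inter_subset_left) fun z hz => hz.2

/-- the polynomial of `DE` -/
noncomputable def pE (k l : ℕ) : MvPolynomial (Fin (max k l + 1)) ℝ := X (iL k l) * X (iP k l) - 1

lemma eval_pE (v : Fin (max k l + 1) → ℝ) : eval v (pE k l) = DE v := by
  simp [pE, DE]

lemma clear_E (P : MvPolynomial (Fin (max k l + 1)) ℝ) :
    ∃ s : ℕ, ∃ N : MvPolynomial (Fin (max k l + 1)) ℝ, ∀ w, DE w ≠ 0 →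
      eval w N = DE w ^ s * eval (E w) P := by
  obtain ⟨s, N, hN⟩ := clear (fun i : Fin (max k l + 1) => if (i : ℕ) = 0 then X (iP k l) else
    X (⟨(i : ℕ) - 1, by have := i.2; omega⟩ : Fin (max k l + 1)) * pE k l) (pE k l) P
  refine ⟨s, N, fun w hw => ?_⟩
  rw [hN w (by rw [eval_pE]; exact hw), eval_pE]
  congr 3
  funext i
  by_cases hi : (i : ℕ) = 0
  · simp [hi, E]
  · simp only [if_neg hi, E, map_mul, eval_X, eval_pE]
    rw [mul_div_assoc, div_self hw, mul_one]

lemma clear_G (P : MvPolynomial (Fin (max k l + 1)) ℝ) :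
    ∃ s : ℕ, ∃ N : MvPolynomial (Fin (max k l + 1)) ℝ, ∀ w : Fin (max k l + 1) → ℝ,
      w (i0 k l) * w (iD k l) ≠ 0 →
      eval w N = (w (i0 k l) * w (iD k l)) ^ s * eval (G w) P := by
  obtain ⟨s, N, hN⟩ := clear (fun i : Fin (max k l + 1) => if h : (i : ℕ) = max k l then
    X (i0 k l) + X (iD k l) else
    X (⟨(i : ℕ) + 1, by have := i.2; omega⟩ : Fin (max k l + 1)) * (X (i0 k l) * X (iD k l)))
    (X (i0 k l) * X (iD k l)) P
  refine ⟨s, N, fun w hw => ?_⟩
  have e : eval w (X (i0 k l) * X (iD k l) : MvPolynomial (Fin (max k l + 1)) ℝ) =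
    w (i0 k l) * w (iD k l) := by simp
  rw [hN w (by rw [e]; exact hw), e]
  congr 3
  funext i
  have h0 : w (i0 k l) ≠ 0 := left_ne_zero_of_mul hw
  have hD : w (iD k l) ≠ 0 := right_ne_zero_of_mul hw
  by_cases hi : (i : ℕ) = max k l
  · simp only [dif_pos hi, G, map_add, eval_X]
    field_simp
  · simp only [dif_neg hi, G, map_mul, eval_X]
    field_simp

lemma open_image (hkl : k ≠ l) (n : ℕ) : ∀ (m : MvPolynomial (Fin (max k l + 1)) ℝ)
    (U : Set (Fin (max k l + 1) → ℝ)), IsOpen U →
    U.Nonempty → (∀ z ∈ U, Good n z) → (∀ z ∈ U, eval (E^[n] z) m = 0) → m = 0 := by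
  induction n with
  | zero => exact fun m U hU hne _ h => zero_of_open hU hne h
  | succ n ih =>
    intro m U hU hne hG h
    obtain ⟨s, N, hN⟩ := clear_E m
    have h0 : N = 0 := by
      refine ih N U hU hne (fun z hz => (hG z hz).1) fun z hz => ?_
      rw [hN _ (hG z hz).2]
      have := h z hz
      rw [Function.iterate_succ_apply'] at this
      rw [this, mul_zero]
    refine zero_of_open Q_open Q_ne fun z hz => ?_
    obtain ⟨h1, h2⟩ := EG hkl (hz (i0 k l)).ne' (hz (iD k l)).ne'
    have h3 : DE (G z) ≠ 0 := by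
      rw [h2]
      exact div_ne_zero (hz _).ne' (hz _).ne'
    have h4 := hN (G z) h3
    rw [h0, map_zero, h1] at h4
    rcases mul_eq_zero.1 h4.symm with h5 | h5
    · exact absurd h5 (pow_ne_zero _ h3)
    · exact h5

/-! ### Algebraic relations -/

/-- An algebraic relation of degree `d` for `φ`, with coefficients `m`. -/
def Rel (φ : (Fin (max k l + 1) → ℝ) → ℝ) (d : ℕ)
    (m : ℕ → MvPolynomial (Fin (max k l + 1)) ℝ) : Prop :=
  ∀ z ∈ Q k l, ∑ i ∈ Finset.range (d + 1), eval z (m i) * φ z ^ i = 0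

lemma G_pos {w : Fin (max k l + 1) → ℝ} (hw : w ∈ Q k l) : G w ∈ Q k l := by
  intro i
  unfold G
  have h1 := hw (iD k l)
  have h2 := hw (i0 k l)
  split_ifs
  · positivity
  · exact hw _

/-- A minimal relation transports backwards. -/
lemma transport {φ : (Fin (max k l + 1) → ℝ) → ℝ} (hpos : ∀ z ∈ Q k l, 0 < φ z)
    (hfe : ∀ z ∈ Q k l, φ (G z) = 1 / φ z) {d : ℕ}
    {m : ℕ → MvPolynomial (Fin (max k l + 1)) ℝ}
    (hrel : Rel φ d m) (hmin : ∀ d' < d, ∀ m', Rel φ d' m' → m' d' = 0)
    {z : Fin (max k l + 1) → ℝ} (hz : z (i0 k l) * z (iD k l) ≠ 0) {t : ℝ} (ht : t ≠ 0)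
    (h : ∑ i ∈ Finset.range (d + 1), eval (G z) (m i) * t ^ i = 0) (h0 : eval (G z) (m 0) ≠ 0) :
    ∑ i ∈ Finset.range (d + 1), eval z (m i) * (1 / t) ^ i = 0 := by
  have hcl := fun i => clear_G (k := k) (l := l) (m i)
  choose s N hN using hcl
  set S := ∑ i ∈ Finset.range (d + 1), s i with hS
  set M : ℕ → MvPolynomial (Fin (max k l + 1)) ℝ := fun i =>
    (X (i0 k l) * X (iD k l)) ^ (S - s i) * N i with hMdef
  have hM : ∀ i ≤ d, ∀ w : Fin (max k l + 1) → ℝ, w (i0 k l) * w (iD k l) ≠ 0 →
      eval w (M i) = (w (i0 k l) * w (iD k l)) ^ S * eval (G w) (m i) := by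
    intro i hi w hw
    have h1 : s i ≤ S := Finset.single_le_sum (fun _ _ => Nat.zero_le _)
      (Finset.mem_range.2 (by omega))
    simp only [hMdef, map_mul, map_pow, eval_X]
    rw [hN i w hw, ← mul_assoc, ← pow_add, Nat.sub_add_cancel h1]
  set c : ℕ → MvPolynomial (Fin (max k l + 1)) ℝ := fun j => m d * M (d - j) - M 0 * m j with hc
  have hcev : ∀ j ≤ d, ∀ w : Fin (max k l + 1) → ℝ, w (i0 k l) * w (iD k l) ≠ 0 →
      eval w (c j) = (w (i0 k l) * w (iD k l)) ^ S * (eval w (m d) * eval (G w) (m (d - j)) -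
        eval (G w) (m 0) * eval w (m j)) := by
    intro j hj w hw
    simp only [hc, map_sub, map_mul]
    rw [hM (d - j) (by omega) w hw, hM 0 (by omega) w hw]
    ring
  have hsum : ∀ w ∈ Q k l, ∑ j ∈ Finset.range (d + 1), eval w (c j) * φ w ^ j = 0 := by
    intro w hw
    have hw1 : w (i0 k l) * w (iD k l) ≠ 0 := (mul_pos (hw _) (hw _)).ne'
    have hφ := hpos w hw
    have r1 := hrel w hw
    have r2 := hrel (G w) (G_pos hw)
    rw [hfe w hw] at r2
    have r3 : ∑ j ∈ Finset.range (d + 1), eval w (m d) * eval (G w) (m (d - j)) * φ w ^ j =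
        eval w (m d) * φ w ^ d *
          ∑ i ∈ Finset.range (d + 1), eval (G w) (m i) * (1 / φ w) ^ i := by
      rw [← Finset.sum_range_reflect (fun i => eval (G w) (m i) * (1 / φ w) ^ i), Finset.mul_sum]
      refine Finset.sum_congr rfl fun j hj => ?_
      have hj' : j ≤ d := by
        have := Finset.mem_range.1 hj
        omega
      have e1 : d + 1 - 1 - j = d - j := by omega
      rw [e1, div_pow, one_pow]
      have e2 : φ w ^ d = φ w ^ (d - j) * φ w ^ j := by rw [← pow_add]; congr 1; omega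
      rw [e2]
      field_simp
    calc ∑ j ∈ Finset.range (d + 1), eval w (c j) * φ w ^ j
        = ∑ j ∈ Finset.range (d + 1), ((w (i0 k l) * w (iD k l)) ^ S *
            (eval w (m d) * eval (G w) (m (d - j)) * φ w ^ j) -
            (w (i0 k l) * w (iD k l)) ^ S * eval (G w) (m 0) * (eval w (m j) * φ w ^ j)) := by
          refine Finset.sum_congr rfl fun j hj => ?_
          rw [hcev j (by have := Finset.mem_range.1 hj; omega) w hw1]
          ring
      _ = 0 := by
          rw [Finset.sum_sub_distrib, ← Finset.mul_sum, ← Finset.mul_sum, r3, r2, r1]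
          ring
  have hcd : c d = 0 := by
    simp only [hc, Nat.sub_self]
    ring
  have hall : ∀ e ≤ d, (∀ w ∈ Q k l, ∑ j ∈ Finset.range e, eval w (c j) * φ w ^ j = 0) →
      ∀ j < e, c j = 0 := by
    intro e
    induction e with
    | zero => intro _ _ j hj; omega
    | succ e ih =>
      intro he hsum' j hj
      have h1 := hmin e (by omega) c hsum'
      have h2 : ∀ w ∈ Q k l, ∑ j ∈ Finset.range e, eval w (c j) * φ w ^ j = 0 := by
        intro w hw
        have := hsum' w hw
        rw [Finset.sum_range_succ, h1] at this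
        simpa using this
      rcases Nat.lt_or_ge j e with hj' | hj'
      · exact ih (by omega) h2 j hj'
      · have : j = e := by omega
        rw [this]
        exact h1
  have hc0 : ∀ j ≤ d, c j = 0 := by
    intro j hj
    rcases Nat.lt_or_ge j d with hj' | hj'
    · refine hall d le_rfl (fun w hw => ?_) j hj'
      have := hsum w hw
      rw [Finset.sum_range_succ, hcd] at this
      simpa using this
    · have : j = d := by omega
      rw [this]
      exact hcd
  have hI : ∀ j ≤ d, eval (G z) (m 0) * eval z (m j) =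
      eval z (m d) * eval (G z) (m (d - j)) := by
    intro j hj
    have h1 := hcev j hj z hz
    rw [hc0 j hj, map_zero] at h1
    rcases mul_eq_zero.1 h1.symm with h3 | h3
    · exact absurd h3 (pow_ne_zero _ hz)
    · linarith
  have key : eval (G z) (m 0) * ∑ i ∈ Finset.range (d + 1), eval z (m i) * (1 / t) ^ i = 0 := by
    rw [Finset.mul_sum]
    have : ∀ i ∈ Finset.range (d + 1), eval (G z) (m 0) * (eval z (m i) * (1 / t) ^ i) =
        eval z (m d) / t ^ d * (eval (G z) (m (d + 1 - 1 - i)) * t ^ (d + 1 - 1 - i)) := by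
      intro i hi
      have hi' : i ≤ d := by
        have := Finset.mem_range.1 hi
        omega
      have e1 : d + 1 - 1 - i = d - i := by omega
      rw [← mul_assoc, hI i hi', e1, div_pow, one_pow]
      have e2 : t ^ d = t ^ (d - i) * t ^ i := by rw [← pow_add]; congr 1; omega
      rw [e2]
      field_simp
    rw [Finset.sum_congr rfl this, ← Finset.mul_sum,
      Finset.sum_range_reflect (fun i => eval (G z) (m i) * t ^ i), h, mul_zero]
  exact (mul_eq_zero.1 key).resolve_left h0

/-- the transported values -/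
noncomputable def T (φ : (Fin (max k l + 1) → ℝ) → ℝ) (n : ℕ) (v : Fin (max k l + 1) → ℝ) : ℝ :=
  if Even n then φ v else 1 / φ v

lemma T_succ (φ : (Fin (max k l + 1) → ℝ) → ℝ) (n : ℕ) (v : Fin (max k l + 1) → ℝ) :
    T φ (n + 1) v = 1 / T φ n v := by
  unfold T
  by_cases he : Even n
  · have he' : ¬ Even (n + 1) := Nat.not_even_iff_odd.2 he.add_one
    rw [if_pos he, if_neg he']
  · have he' : Even (n + 1) := (Nat.not_even_iff_odd.1 he).add_one
    rw [if_neg he, if_pos he', one_div_one_div]

lemma T_ne {φ : (Fin (max k l + 1) → ℝ) → ℝ} (hpos : ∀ z ∈ Q k l, 0 < φ z) {n : ℕ}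
    {z : Fin (max k l + 1) → ℝ} (hz : z ∈ Q k l) : T φ n z ≠ 0 := by
  have := hpos z hz
  unfold T
  split_ifs <;> positivity

lemma T_cont {φ : (Fin (max k l + 1) → ℝ) → ℝ} (hc : ContinuousOn φ (Q k l))
    (hpos : ∀ z ∈ Q k l, 0 < φ z) (n : ℕ) : ContinuousOn (T φ n) (Q k l) := by
  by_cases he : Even n
  · have : T φ n = φ := by funext v; simp [T, he]
    rw [this]
    exact hc
  · have : T φ n = fun v => 1 / φ v := by funext v; simp [T, he]
    rw [this]
    exact continuousOn_const.div hc fun z hz => (hpos z hz).ne'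

lemma claim (hkl : k ≠ l) {φ : (Fin (max k l + 1) → ℝ) → ℝ} (hcφ : ContinuousOn φ (Q k l))
    (hpos : ∀ z ∈ Q k l, 0 < φ z)
    (hfe : ∀ z ∈ Q k l, φ (G z) = 1 / φ z) {d : ℕ} {m : ℕ → MvPolynomial (Fin (max k l + 1)) ℝ}
    (hrel : Rel φ d m) (hmin : ∀ d' < d, ∀ m', Rel φ d' m' → m' d' = 0) (hm0 : m 0 ≠ 0)
    (n : ℕ) : ∀ z ∈ Q k l, Good n z →
      ∑ i ∈ Finset.range (d + 1), eval (E^[n] z) (m i) * T φ n z ^ i = 0 := by
  induction n with
  | zero =>
    intro z hz _
    simpa [T] using hrel z hz
  | succ n ih =>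
    intro z0 hz0 hG0
    by_contra hne
    set W : Set (Fin (max k l + 1) → ℝ) := Q k l ∩ {z | Good (n + 1) z} with hW
    have hWo : IsOpen W := Q_open.inter (good_open (n + 1)).1
    set g : (Fin (max k l + 1) → ℝ) → ℝ :=
      fun z => ∑ i ∈ Finset.range (d + 1), eval (E^[n + 1] z) (m i) * T φ (n + 1) z ^ i with hg
    have hgc : ContinuousOn g W := by
      refine continuousOn_finsetSum _ fun i _ => ?_
      exact ((MvPolynomial.continuous_eval (m i)).comp_continuousOn
        ((good_open (n + 1)).2.mono Set.inter_subset_right)).mul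
          (((T_cont hcφ hpos (n + 1)).mono Set.inter_subset_left).pow i)
    have hUo : IsOpen (W ∩ g ⁻¹' {x | x ≠ 0}) :=
      hgc.isOpen_inter_preimage hWo isOpen_ne
    refine hm0 (open_image hkl n (m 0) _ hUo ⟨z0, ⟨hz0, hG0⟩, hne⟩ (fun z hz => hz.1.2.1)
      fun z hz => ?_)
    by_contra hf
    refine hz.2 ?_
    have hGz : Good (n + 1) z := hz.1.2
    have e1 : G (E^[n + 1] z) = E^[n] z := by
      rw [Function.iterate_succ_apply']
      exact GE hkl ((hGz.1.nz hkl).P hkl) hGz.2
    have hnz : ∀ i, E^[n + 1] z i ≠ 0 := by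
      rw [Function.iterate_succ_apply']
      exact NZ_E hkl (hGz.1.nz hkl) hGz.2
    simp only [hg]
    rw [T_succ]
    exact transport hpos hfe hrel hmin (z := E^[n + 1] z) (t := T φ n z)
      (mul_ne_zero (hnz _) (hnz _)) (T_ne hpos hz.1.1)
      (by rw [e1]; exact ih z hz.1.1 hGz.1) (by rw [e1]; exact hf)

/-! ### The function `φ` -/

lemma drop {a b M : ℕ} (ha : 1 ≤ a) (hb : 1 ≤ b) (hab : Nat.Coprime a b)
    (haM : a ≤ M + 1) (hbM : b ≤ M + 1) {w : ℕ → ℝ} (hw : ∀ n, 0 < w n)
    (h : ∀ t, M + 1 ≤ t → Mean (w t) (w (t - a)) (w (t - b))) (j : ℕ) :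
    hi w M (j + (2 * M + 1 + a * b)) ≤
      hi w M j - (1 / 2 : ℝ) ^ (2 * M + a * b + 1 + M) * (hi w M j - w (j + M + 1)) := by
  have inv1 : Inv w M := mean_inv ha hb haM hbM hw h
  have b1 : ∀ j n, w (j + n) ≤ hi w M j := fun j n => inv1.le j n
  refine hi_le _ _ _ _ fun s hs => ?_
  have hp : ∀ c : ℕ, 1 ≤ c → c ≤ M + 1 → (c = a ∨ c = b) → ∀ (e : ℕ) (t : ℕ), j + M + 1 ≤ t →
      (1 / 2) * (hi w M j - w t) ≤ hi w M j - w (t + c) := by
    intro c hc hcM hcab e t ht
    have h1 := (h (t + c) (by omega)).le_am (hw _) (hw _)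
    have hA : ∀ s, j ≤ s → w s ≤ hi w M j := fun s hs => by
      have := b1 j (s - j)
      rwa [Nat.add_sub_cancel' hs] at this
    rcases hcab with rfl | rfl
    · have e1 : t + c - c = t := by omega
      rw [e1] at h1
      have h2 := hA (t + c - b) (by omega)
      linarith
    · have e1 : t + c - c = t := by omega
      rw [e1] at h1
      have h2 := hA (t + c - a) (by omega)
      linarith
  have hn : a * b ≤ (j + (2 * M + 1 + a * b) + s) - (j + M + 1) := by omega
  obtain ⟨x, y, hxy⟩ := repr hab hn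
  have hpath := path (f := fun _ t => w t) (p := a) (q := b) (J := j + M + 1) (U := hi w M j)
    (fun e t ht => hp a ha haM (Or.inl rfl) e t ht) (fun e t ht => hp b hb hbM (Or.inr rfl) e t ht)
    x y 0 (j + M + 1) (by omega)
  have e1 : j + M + 1 + (x * a + y * b) = j + (2 * M + 1 + a * b) + s := by omega
  rw [e1] at hpath
  have hst := steps_le (x := x) (y := y) ha hb
  have h5 : 0 ≤ hi w M j - w (j + M + 1) := by
    have := b1 j (M + 1)
    have e : j + (M + 1) = j + M + 1 := by ring
    rw [e] at this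
    linarith
  have h6 := pow_half_le (n := x + y) (T := 2 * M + a * b + 1 + M) (by omega) h5
  linarith

lemma sol_rec {x : ℕ → ℝ} (hx : Solution k l x) : ∀ t, max k l + 1 ≤ t →
    x t = 1 / x (t - (k + 1)) + 1 / x (t - (l + 1)) := by
  intro t ht
  obtain ⟨m, rfl⟩ : ∃ m, t = m + max k l + 1 := ⟨t - max k l - 1, by omega⟩
  rw [hx m]
  have e1 : m + max k l + 1 - (k + 1) = m + max k l - k := by omega
  have e2 : m + max k l + 1 - (l + 1) = m + max k l - l := by omega
  rw [e1, e2]

lemma growth {x : ℕ → ℝ} (hx : Solution k l x) (hpos : ∀ n, 0 < x n) (q : ℕ) :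
    x (max k l + (k + l + 2) * q) ≤ 2 ^ q * x (max k l) := by
  have step : ∀ n, max k l ≤ n → x (n + (k + l + 2)) ≤ 2 * x n := by
    intro n hn
    have r1 := sol_rec hx (n + (l + 1)) (by omega)
    have r2 := sol_rec hx (n + (k + 1)) (by omega)
    have r3 := sol_rec hx (n + (k + l + 2)) (by omega)
    have e1 : n + (l + 1) - (l + 1) = n := by omega
    have e2 : n + (k + 1) - (k + 1) = n := by omega
    have e3 : n + (k + l + 2) - (k + 1) = n + (l + 1) := by omega
    have e4 : n + (k + l + 2) - (l + 1) = n + (k + 1) := by omega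
    rw [e1] at r1
    rw [e2] at r2
    rw [e3, e4] at r3
    have p1 := one_div_pos.2 (hpos (n + (l + 1) - (k + 1)))
    have p2 := one_div_pos.2 (hpos (n + (k + 1) - (l + 1)))
    have s1 : 1 / x n ≤ x (n + (l + 1)) := by linarith
    have s2 : 1 / x n ≤ x (n + (k + 1)) := by linarith
    have t1 := (one_div_le (hpos n) (hpos _)).1 s1
    have t2 := (one_div_le (hpos n) (hpos _)).1 s2
    linarith
  induction q with
  | zero => simp
  | succ q ih =>
    have h1 := step (max k l + (k + l + 2) * q) (by omega)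
    have e : max k l + (k + l + 2) * (q + 1) = max k l + (k + l + 2) * q + (k + l + 2) := by ring
    rw [e, pow_succ]
    linarith

lemma odd_of (hg : gg k l = 1) (hval : padicValNat 2 (k + 1) = padicValNat 2 (l + 1)) :
    Odd (k + 1) ∧ Odd (l + 1) := by
  have h1 : Nat.Coprime (k + 1) (l + 1) := hg
  have h2 := (val_iff (g := 1) le_rfl (by omega) (by omega) h1).1 (by
    rw [one_mul, one_mul]
    exact hval)
  exact h2

lemma orb_shift (hkl : k ≠ l) (v : Fin (max k l + 1) → ℝ) :
    (fun n => orb k l v (n + 1)) = orb k l (G v) := by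
  have hs : Solution k l fun n => orb k l v (n + 1) := by
    intro n
    have h := orb_sol k l v (n + 1)
    have a1 : n + 1 + max k l + 1 = n + max k l + 1 + 1 := by ring
    have a2 : n + 1 + max k l - k = n + max k l - k + 1 := by omega
    have a3 : n + 1 + max k l - l = n + max k l - l + 1 := by omega
    rw [a1, a2, a3] at h
    exact h
  refine hs.unique (orb_sol k l (G v)) fun i hi => ?_
  have h1 := orb_init k l (G v) ⟨i, by omega⟩
  simp only at h1
  rw [h1]
  by_cases him : i = max k l
  · simp only [G, dif_pos him]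
    have h2 := orb_sol k l v 0
    rw [zero_add] at h2
    rw [him, h2]
    rcases Nat.lt_or_gt_of_ne hkl with hlt | hlt
    · have f1 : max k l - k = ((iD k l : Fin (max k l + 1)) : ℕ) := by simp only [iD]; omega
      have f2 : max k l - l = ((i0 k l : Fin (max k l + 1)) : ℕ) := by simp only [i0]; omega
      rw [f1, f2, orb_init, orb_init]
    · have f1 : max k l - l = ((iD k l : Fin (max k l + 1)) : ℕ) := by simp only [iD]; omega
      have f2 : max k l - k = ((i0 k l : Fin (max k l + 1)) : ℕ) := by simp only [i0]; omega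
      rw [f1, f2, orb_init, orb_init, add_comm]
  · simp only [G, dif_neg him]
    exact orb_init k l v ⟨i + 1, by omega⟩

lemma phi_exists (hkl : k ≠ l) (hg : gg k l = 1)
    (hval : padicValNat 2 (k + 1) = padicValNat 2 (l + 1)) :
    ∃ φ : (Fin (max k l + 1) → ℝ) → ℝ, ContinuousOn φ (Q k l) ∧ (∀ z ∈ Q k l, 0 < φ z) ∧
      (∀ z ∈ Q k l, φ (G z) = 1 / φ z) ∧
      (∀ z ∈ Q k l, scale k l (fun _ => φ z) z ∈ Basin k l) ∧
      (∀ c ∈ Q k l, Tendsto (fun t => 1 / φ (Function.update c (iL k l) t)) (𝓝[>] 0) (𝓝 0)) := by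
  obtain ⟨-, C, hCc, hCp, hCs, hCB, hClim⟩ := (basin_structure k l).2 hval
  have hs2 : (0 : ℝ) < √2 := by positivity
  have hsq : √2 * √2 = (2 : ℝ) := Real.mul_self_sqrt (by norm_num)
  set r0 : Fin (gg k l) := ⟨0, gg_pos k l⟩ with hr0
  have hr : ∀ r : Fin (gg k l), r = r0 := by
    intro r
    apply Fin.ext
    have h1 := r.2
    show (r : ℕ) = 0
    omega
  have hlim : ∀ v ∈ Q k l, Tendsto (fun j => orb k l v (2 * j)) atTop (𝓝 (C v r0)) ∧
      Tendsto (fun j => orb k l v (2 * j + 1)) atTop (𝓝 (2 / C v r0)) := by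
    intro v hv
    have hv' : (fun i : Fin (max k l + 1) => orb k l v i) = v := funext fun i => orb_init k l v i
    have h := hClim (orb k l v) (orb_sol k l v) (fun i _ => orb_pos hv i) r0
    rw [hv'] at h
    constructor
    · refine h.1.congr fun j => ?_
      show orb k l v (0 + gg k l * (2 * j)) = _
      rw [hg, one_mul, zero_add]
    · refine h.2.congr fun j => ?_
      show orb k l v (0 + gg k l * (2 * j + 1)) = _
      rw [hg, one_mul, zero_add]
  have hCG : ∀ v ∈ Q k l, C (G v) r0 = 2 / C v r0 := by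
    intro v hv
    have h1 := (hlim (G v) (G_pos hv)).1
    rw [← orb_shift hkl] at h1
    exact tendsto_nhds_unique h1 (hlim v hv).2
  refine ⟨fun v => √2 / C v r0, ?_, fun z hz => div_pos hs2 (hCp z hz r0), fun z hz => ?_,
    fun z hz => ?_, fun c hc => ?_⟩
  · exact continuousOn_const.div (continuousOn_pi.1 hCc r0) fun z hz => (hCp z hz r0).ne'
  · show √2 / C (G z) r0 = 1 / (√2 / C z r0)
    rw [hCG z hz, one_div_div, div_div_eq_mul_div, div_eq_div_iff two_ne_zero hs2.ne']
    linear_combination (C z r0) * hsq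
  · have h4 : 0 < √2 / C z r0 := div_pos hs2 (hCp z hz r0)
    rw [hCB]
    refine ⟨scale_pos (fun _ => h4) hz, fun r => ?_⟩
    rw [hCs z hz _ (fun _ => h4) r, hr r]
    exact div_mul_cancel₀ _ (hCp z hz r0).ne'
  · have hodd := odd_of hg hval
    have hM2 : Even (max k l) := by
      have h1 : Even k := by
        have := hodd.1
        rw [Nat.odd_iff] at this
        rw [Nat.even_iff]
        omega
      have h2 : Even l := by
        have := hodd.2
        rw [Nat.odd_iff] at this
        rw [Nat.even_iff]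
        omega
      rcases le_total k l with h | h
      · rw [max_eq_right h]; exact h2
      · rw [max_eq_left h]; exact h1
    have hs_even : Even (k + l + 2) := by
      have := hodd.1.add_odd hodd.2
      have e : k + 1 + (l + 1) = k + l + 2 := by ring
      rwa [e] at this
    obtain ⟨M, hMd⟩ : ∃ M : ℕ, M = max k l := ⟨_, rfl⟩
    rw [← hMd] at hM2
    set κ : ℝ := (1 / 2 : ℝ) ^ (2 * M + (k + 1) * (l + 1) + 1 + M) with hκ
    have hκ0 : 0 < κ := by positivity
    have hκ1 : κ ≤ 1 := pow_le_one₀ (by norm_num) (by norm_num)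
    set N := 2 * M + 1 + (k + 1) * (l + 1) with hN
    set K0 : ℝ := 1 + ∑ i, (c i + 2 / c i) with hK0
    have hKge : ∀ i, c i ≤ K0 ∧ 2 / c i ≤ K0 := by
      intro i
      have h1 : c i + 2 / c i ≤ ∑ i, (c i + 2 / c i) :=
        Finset.single_le_sum (f := fun i => c i + 2 / c i)
          (fun j _ => by have := hc j; positivity) (Finset.mem_univ i)
      have h2 := hc i
      have h3 : 0 < 2 / c i := by positivity
      constructor <;> linarith
    have hK1 : 1 ≤ K0 := by
      have : 0 ≤ ∑ i, (c i + 2 / c i) := Finset.sum_nonneg fun j _ => by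
        have := hc j; positivity
      linarith
    have bound : ∀ q : ℕ, ∃ A : ℝ, 0 ≤ A ∧ ∀ t : ℝ, 0 < t → t ≤ 1 →
        hi (ws 1 (orb k l (Function.update c (iL k l) t)) 0) M ((k + l + 2) * N * (q + 1) - 1) ≤
          (1 - κ) ^ q * K0 + A * t := by
      intro q
      induction q with
      | zero =>
        refine ⟨0, le_rfl, fun t ht ht1 => ?_⟩
        have hvQ : ∀ i, 0 < Function.update c (iL k l) t i := by
          intro i
          by_cases hi : i = iL k l
          · rw [hi, Function.update_self]; exact ht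
          · rw [Function.update_of_ne hi]; exact hc i
        have hmean := ws_mean (g := 1) (a := k + 1) (b := l + 1) (orb_pos hvQ) hodd.1 hodd.2
          (fun τ hτ => by
            rw [one_mul, one_mul]
            exact sol_rec (orb_sol k l _) τ (by omega)) 0
        have inv1 := mean_inv (a := k + 1) (b := l + 1) (M := M) (by omega) (by omega) (by omega)
          (by omega) (ws_pos (g := 1) (orb_pos hvQ) 0) (fun τ hτ => hmean τ (by omega))
        refine (inv1.anti (Nat.zero_le _)).trans ?_
        rw [pow_zero, one_mul, zero_mul, add_zero]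
        refine hi_le _ _ _ _ fun i hi => ?_
        have e1 := orb_init k l (Function.update c (iL k l) t) ⟨i, by omega⟩
        simp only at e1
        by_cases hiM : i = M
        · have e2 : (⟨i, by omega⟩ : Fin (max k l + 1)) = iL k l := Fin.ext (hiM.trans hMd)
          rw [e2, Function.update_self] at e1
          have he : Even i := by rw [hiM]; exact hM2
          simp only [ws, if_pos he, one_mul, zero_add]
          rw [e1]
          linarith
        · have e2 : (⟨i, by omega⟩ : Fin (max k l + 1)) ≠ iL k l := fun h => hiM (by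
            have := congrArg Fin.val h
            rw [hMd]
            exact this)
          rw [Function.update_of_ne e2] at e1
          simp only [ws, one_mul, zero_add]
          rw [e1]
          split_ifs
          · exact (hKge _).1
          · exact (hKge _).2
      | succ q ih =>
        obtain ⟨A, hA0, hA⟩ := ih
        refine ⟨A + 2 ^ (N * (q + 1)), by positivity, fun t ht ht1 => ?_⟩
        have hvQ : ∀ i, 0 < Function.update c (iL k l) t i := by
          intro i
          by_cases hi : i = iL k l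
          · rw [hi, Function.update_self]; exact ht
          · rw [Function.update_of_ne hi]; exact hc i
        have hmean := ws_mean (g := 1) (a := k + 1) (b := l + 1) (orb_pos hvQ) hodd.1 hodd.2
          (fun τ hτ => by
            rw [one_mul, one_mul]
            exact sol_rec (orb_sol k l _) τ (by omega)) 0
        have hwp := ws_pos (g := 1) (orb_pos hvQ) 0
        have inv1 := mean_inv (a := k + 1) (b := l + 1) (M := M) (by omega) (by omega) (by omega)
          (by omega) hwp (fun τ hτ => hmean τ (by omega))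
        have hd := drop (a := k + 1) (b := l + 1) (M := M) (by omega) (by omega) hg (by omega)
          (by omega) hwp (fun τ hτ => hmean τ (by omega)) ((k + l + 2) * N * (q + 1) - 1)
        have hNpos : 1 ≤ N := by omega
        have hsN : 1 ≤ (k + l + 2) * N * (q + 1) :=
          Nat.mul_pos (Nat.mul_pos (by omega) hNpos) (by omega)
        have hmono : (k + l + 2) * N * (q + 1) - 1 + N ≤ (k + l + 2) * N * (q + 1 + 1) - 1 := by
          have h1 : (k + l + 2) * N * (q + 1 + 1) = (k + l + 2) * N * (q + 1) + (k + l + 2) * N := by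
            ring
          have h2 : 1 * N ≤ (k + l + 2) * N := Nat.mul_le_mul_right _ (by omega)
          omega
        have h3 := inv1.anti hmono
        have e0 : (k + l + 2) * N * (q + 1) - 1 + M + 1 = M + (k + l + 2) * (N * (q + 1)) := by
          have : (k + l + 2) * (N * (q + 1)) = (k + l + 2) * N * (q + 1) := by ring
          omega
        rw [e0] at hd
        have hgr0 := growth (orb_sol k l (Function.update c (iL k l) t)) (orb_pos hvQ) (N * (q + 1))
        have hinit := orb_init k l (Function.update c (iL k l) t) (iL k l)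
        rw [Function.update_self] at hinit
        have hinit' : orb k l (Function.update c (iL k l) t) (max k l) = t := hinit
        rw [hinit'] at hgr0
        have hgr : orb k l (Function.update c (iL k l) t) (M + (k + l + 2) * (N * (q + 1))) ≤
            2 ^ (N * (q + 1)) * t := by
          rw [hMd]
          exact hgr0
        have hwe : ws 1 (orb k l (Function.update c (iL k l) t)) 0
            (M + (k + l + 2) * (N * (q + 1))) =
            orb k l (Function.update c (iL k l) t) (M + (k + l + 2) * (N * (q + 1))) := by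
          have he : Even (M + (k + l + 2) * (N * (q + 1))) := hM2.add (hs_even.mul_right _)
          simp only [ws, if_pos he, one_mul, zero_add]
        rw [hwe] at hd
        have hih := hA t ht ht1
        set f0 := hi (ws 1 (orb k l (Function.update c (iL k l) t)) 0) M
          ((k + l + 2) * N * (q + 1) - 1) with hf0
        set X := orb k l (Function.update c (iL k l) t) (M + (k + l + 2) * (N * (q + 1))) with hX
        have h4 : f0 - κ * (f0 - X) ≤ (1 - κ) ^ (q + 1) * K0 + (A + 2 ^ (N * (q + 1))) * t := by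
          have h5 : (1 - κ) * f0 ≤ (1 - κ) * ((1 - κ) ^ q * K0 + A * t) :=
            mul_le_mul_of_nonneg_left hih (by linarith)
          have h6 : κ * X ≤ 1 * (2 ^ (N * (q + 1)) * t) :=
            mul_le_mul hκ1 hgr (orb_pos hvQ _).le zero_le_one
          have h7 : 0 ≤ κ * (A * t) := by positivity
          have h8 : (1 - κ) ^ (q + 1) * K0 = (1 - κ) * ((1 - κ) ^ q * K0) := by ring
          rw [h8]
          nlinarith
        exact h3.trans (hd.trans h4)
    -- conclusion
    have hCb : ∀ (q : ℕ) (A : ℝ), (∀ t : ℝ, 0 < t → t ≤ 1 →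
        hi (ws 1 (orb k l (Function.update c (iL k l) t)) 0) M ((k + l + 2) * N * (q + 1) - 1) ≤
          (1 - κ) ^ q * K0 + A * t) → ∀ t : ℝ, 0 < t → t ≤ 1 →
        C (Function.update c (iL k l) t) r0 ≤ (1 - κ) ^ q * K0 + A * t := by
      intro q A hA t ht ht1
      have hvQ : ∀ i, 0 < Function.update c (iL k l) t i := by
        intro i
        by_cases hi : i = iL k l
        · rw [hi, Function.update_self]; exact ht
        · rw [Function.update_of_ne hi]; exact hc i
      have hmean := ws_mean (g := 1) (a := k + 1) (b := l + 1) (orb_pos hvQ) hodd.1 hodd.2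
        (fun τ hτ => by
          rw [one_mul, one_mul]
          exact sol_rec (orb_sol k l _) τ (by omega)) 0
      have inv1 := mean_inv (a := k + 1) (b := l + 1) (M := M) (by omega) (by omega) (by omega)
        (by omega) (ws_pos (g := 1) (orb_pos hvQ) 0) (fun τ hτ => hmean τ (by omega))
      refine le_of_tendsto (hlim _ hvQ).1 ?_
      filter_upwards [eventually_ge_atTop ((k + l + 2) * N * (q + 1) - 1)] with j hj
      have h1 := inv1.le ((k + l + 2) * N * (q + 1) - 1) (2 * j - ((k + l + 2) * N * (q + 1) - 1))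
      rw [Nat.add_sub_cancel' (by omega)] at h1
      have he : Even (2 * j) := even_two_mul j
      simp only [ws, if_pos he, one_mul, zero_add] at h1
      exact h1.trans (hA t ht ht1)
    have hC0 : Tendsto (fun t => C (Function.update c (iL k l) t) r0) (𝓝[>] 0) (𝓝 0) := by
      refine tendsto_order.2 ⟨fun a ha => ?_, fun a ha => ?_⟩
      · filter_upwards [self_mem_nhdsWithin] with t ht
        have hvQ : ∀ i, 0 < Function.update c (iL k l) t i := by
          intro i
          by_cases hi : i = iL k l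
          · rw [hi, Function.update_self]; exact ht
          · rw [Function.update_of_ne hi]; exact hc i
        exact ha.trans (hCp _ hvQ r0)
      · have hpow : Tendsto (fun q : ℕ => (1 - κ) ^ q * K0) atTop (𝓝 (0 * K0)) :=
          (tendsto_pow_atTop_nhds_zero_of_lt_one (by linarith) (by linarith)).mul_const K0
        rw [zero_mul] at hpow
        obtain ⟨q, hq⟩ := (hpow.eventually_lt_const (show (0 : ℝ) < a / 2 by linarith)).exists
        obtain ⟨A, hA0, hA⟩ := bound q
        have hA1 : Tendsto (fun t : ℝ => A * t) (𝓝[>] 0) (𝓝 (A * 0)) :=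
          (tendsto_id.mono_left nhdsWithin_le_nhds).const_mul A
        rw [mul_zero] at hA1
        filter_upwards [self_mem_nhdsWithin, hA1.eventually_lt_const (show (0 : ℝ) < a / 2 by linarith),
          Ioo_mem_nhdsGT (show (0 : ℝ) < 1 by norm_num)] with t ht ht2 ht3
        have := hCb q A hA t ht ht3.2.le
        linarith
    have h9 := hC0.div_const √2
    rw [zero_div] at h9
    refine h9.congr fun t => ?_
    rw [one_div_div]

/-! ### The limit -/

lemma update_pos {c : Fin (max k l + 1) → ℝ} (hc : c ∈ Q k l) {t : ℝ} (ht : 0 < t) :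
    Function.update c (iL k l) t ∈ Q k l := by
  intro i
  by_cases hi : i = iL k l
  · rw [hi, Function.update_self]; exact ht
  · rw [Function.update_of_ne hi]; exact hc i

lemma update_tendsto (c : Fin (max k l + 1) → ℝ) :
    Tendsto (fun t : ℝ => Function.update c (iL k l) t) (𝓝[>] 0)
      (𝓝 (Function.update c (iL k l) 0)) := by
  have : Continuous fun t : ℝ => Function.update c (iL k l) t :=
    continuous_const.update _ continuous_id
  exact (this.tendsto 0).mono_left nhdsWithin_le_nhds

lemma limit_zero {φ : (Fin (max k l + 1) → ℝ) → ℝ}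
    (hlim : ∀ c ∈ Q k l, Tendsto (fun t => 1 / φ (Function.update c (iL k l) t)) (𝓝[>] 0) (𝓝 0))
    {d : ℕ} {m : ℕ → MvPolynomial (Fin (max k l + 1)) ℝ} {n : ℕ} (hn : ¬ Even n)
    (hclaim : ∀ z ∈ Q k l, Good n z →
      ∑ i ∈ Finset.range (d + 1), eval (E^[n] z) (m i) * T φ n z ^ i = 0)
    {c : Fin (max k l + 1) → ℝ} (hc : c ∈ Q k l) (hG : Good n (Function.update c (iL k l) 0)) :
    eval (E^[n] (Function.update c (iL k l) 0)) (m 0) = 0 := by
  have hT : Tendsto (fun t => T φ n (Function.update c (iL k l) t)) (𝓝[>] 0) (𝓝 0) := by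
    refine (hlim c hc).congr fun t => ?_
    simp only [T, if_neg hn]
  have hit : Tendsto (fun t : ℝ => E^[n] (Function.update c (iL k l) t)) (𝓝[>] 0)
      (𝓝 (E^[n] (Function.update c (iL k l) 0))) := by
    have h1 : ContinuousAt (E^[n]) (Function.update c (iL k l) 0) :=
      (good_open n).2.continuousAt ((good_open n).1.mem_nhds hG)
    exact h1.tendsto.comp (update_tendsto c)
  have hsum : Tendsto (fun t => ∑ i ∈ Finset.range (d + 1),
      eval (E^[n] (Function.update c (iL k l) t)) (m i) *
        T φ n (Function.update c (iL k l) t) ^ i) (𝓝[>] 0)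
      (𝓝 (∑ i ∈ Finset.range (d + 1),
        eval (E^[n] (Function.update c (iL k l) 0)) (m i) * 0 ^ i)) := by
    refine tendsto_finsetSum _ fun i _ => ?_
    exact (((MvPolynomial.continuous_eval (m i)).tendsto _).comp hit).mul (hT.pow i)
  have hev : (fun t => ∑ i ∈ Finset.range (d + 1),
      eval (E^[n] (Function.update c (iL k l) t)) (m i) *
        T φ n (Function.update c (iL k l) t) ^ i) =ᶠ[𝓝[>] 0] fun _ => 0 := by
    filter_upwards [self_mem_nhdsWithin,
      (update_tendsto c).eventually ((good_open n).1.mem_nhds hG)] with t ht ht2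
    exact hclaim _ (update_pos hc ht) ht2
  have h3 := tendsto_nhds_unique (hsum.congr' hev) tendsto_const_nhds
  rw [Finset.sum_range_succ'] at h3
  simpa using h3

/-! ### Polynomials that vanish on the curves -/

/-- `f` vanishes on the `n`-th backward image of the hyperplane `v_L = 0`. -/
def Van (n : ℕ) (f : MvPolynomial (Fin (max k l + 1)) ℝ) : Prop :=
  ∀ c ∈ Q k l, Good n (Function.update c (iL k l) 0) →
    eval (E^[n] (Function.update c (iL k l) 0)) f = 0

lemma E_zero : E (0 : Fin (max k l + 1) → ℝ) = 0 := by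
  funext i
  unfold E
  split_ifs <;> simp

lemma near_zero (n : ℕ) : (∀ᶠ v : Fin (max k l + 1) → ℝ in 𝓝 0, ∀ j < n, DE (E^[j] v) ≠ 0) ∧
    Tendsto (E^[n] : (Fin (max k l + 1) → ℝ) → _) (𝓝 0) (𝓝 0) := by
  induction n with
  | zero => exact ⟨by simp, by simpa using tendsto_id⟩
  | succ n ih =>
    have h0 : DE (0 : Fin (max k l + 1) → ℝ) ≠ 0 := by simp [DE]
    have h1 : ∀ᶠ w : Fin (max k l + 1) → ℝ in 𝓝 0, DE w ≠ 0 :=
      (isOpen_ne_fun DE_cont continuous_const).mem_nhds h0
    refine ⟨?_, ?_⟩
    · filter_upwards [ih.1, ih.2.eventually h1] with v hv1 hv2 j hj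
      rcases Nat.lt_or_ge j n with h | h
      · exact hv1 j h
      · have : j = n := by omega
        rw [this]
        exact hv2
    · have hc : ContinuousAt E (0 : Fin (max k l + 1) → ℝ) := E_cont.continuousAt h1
      have h2 : Tendsto E (𝓝 (0 : Fin (max k l + 1) → ℝ)) (𝓝 0) := by
        have := hc.tendsto
        rwa [E_zero] at this
      have : E^[n + 1] = (E : (Fin (max k l + 1) → ℝ) → _) ∘ E^[n] := Function.iterate_succ' E n
      rw [this]
      exact h2.comp ih.2

lemma good_iff (hkl : k ≠ l) (n : ℕ) (v : Fin (max k l + 1) → ℝ) :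
    Good n v ↔ NZ v ∧ ∀ j < n, DE (E^[j] v) ≠ 0 := by
  induction n with
  | zero => simp [Good]
  | succ n ih =>
    show Good n v ∧ DE (E^[n] v) ≠ 0 ↔ _
    rw [ih]
    constructor
    · rintro ⟨⟨h1, h2⟩, h3⟩
      refine ⟨h1, fun j hj => ?_⟩
      rcases Nat.lt_or_ge j n with h | h
      · exact h2 j h
      · have : j = n := by omega
        rw [this]
        exact h3
    · rintro ⟨h1, h2⟩
      exact ⟨⟨h1, fun j hj => h2 j (by omega)⟩, h2 n (by omega)⟩

lemma NZ_update {c : Fin (max k l + 1) → ℝ} (hc : c ∈ Q k l) :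
    NZ (Function.update c (iL k l) 0) := by
  intro i hi
  rw [Function.update_of_ne (fun h => hi (by rw [h]; rfl))]
  exact (hc i).ne'

/-- the set of parameters -/
def Par (k l n : ℕ) : Set (Fin (max k l + 1) → ℝ) :=
  {c | c ∈ Q k l ∧ Good n (Function.update c (iL k l) 0)}

lemma Par_open (n : ℕ) : IsOpen (Par k l n) := by
  have h : Continuous fun c : Fin (max k l + 1) → ℝ => Function.update c (iL k l) 0 :=
    continuous_id.update _ continuous_const
  exact Q_open.inter ((good_open n).1.preimage h)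

lemma Par_ne (hkl : k ≠ l) (n : ℕ) : (Par k l n).Nonempty := by
  have h : Continuous fun t : ℝ => Function.update (fun _ : Fin (max k l + 1) => t) (iL k l) 0 :=
    (continuous_pi fun _ => continuous_id).update _ continuous_const
  have h0 : Function.update (fun _ : Fin (max k l + 1) => (0 : ℝ)) (iL k l) 0 = 0 := by
    funext i
    by_cases hi : i = iL k l
    · rw [hi, Function.update_self]; rfl
    · rw [Function.update_of_ne hi]; rfl
  have h1 := h.tendsto 0
  rw [h0] at h1
  have h2 := (h1.eventually (near_zero n).1).filter_mono (nhdsWithin_le_nhds (s := Set.Ioi 0))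
  obtain ⟨t, ht1, ht2⟩ := (h2.and self_mem_nhdsWithin).exists
  have hQ : (fun _ : Fin (max k l + 1) => t) ∈ Q k l := fun _ => ht2
  exact ⟨fun _ => t, hQ, (good_iff hkl n _).2 ⟨NZ_update hQ, ht1⟩⟩

lemma Good.mono {n m : ℕ} (hmn : m ≤ n) {v : Fin (max k l + 1) → ℝ} (h : Good n v) : Good m v := by
  induction n with
  | zero =>
    have : m = 0 := by omega
    rw [this]
    exact h
  | succ n ih =>
    rcases Nat.lt_or_ge m (n + 1) with h1 | h1
    · exact ih (by omega) h.1
    · have : m = n + 1 := by omega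
      rw [this]
      exact h

/-- clearing denominators for iterates of `E` -/
lemma clear_En (n : ℕ) : ∀ P : MvPolynomial (Fin (max k l + 1)) ℝ,
    ∃ N A : MvPolynomial (Fin (max k l + 1)) ℝ, ∀ v, Good n v →
      eval v A ≠ 0 ∧ eval v N = eval v A * eval (E^[n] v) P := by
  induction n with
  | zero => exact fun P => ⟨P, 1, fun v _ => by simp⟩
  | succ n ih =>
    intro P
    obtain ⟨s, N1, h1⟩ := clear_E P
    obtain ⟨N2, A2, h2⟩ := ih N1
    obtain ⟨N3, A3, h3⟩ := ih (pE k l)
    refine ⟨N2 * A3 ^ s, A2 * N3 ^ s, fun v hv => ?_⟩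
    obtain ⟨a2, b2⟩ := h2 v hv.1
    obtain ⟨a3, b3⟩ := h3 v hv.1
    rw [eval_pE] at b3
    have hD : DE (E^[n] v) ≠ 0 := hv.2
    have hN3 : eval v N3 ≠ 0 := by rw [b3]; exact mul_ne_zero a3 hD
    have h4 := h1 _ hD
    rw [Function.iterate_succ_apply', map_mul, map_mul, map_pow, map_pow]
    refine ⟨mul_ne_zero a2 (pow_ne_zero _ hN3), ?_⟩
    rw [b2, h4, b3]
    ring

/-- forward regularity -/
def RegG (n : ℕ) (v : Fin (max k l + 1) → ℝ) : Prop :=
  ∀ j < n, G^[j] v (i0 k l) * G^[j] v (iD k l) ≠ 0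

lemma clear_Gn (n : ℕ) : ∀ P : MvPolynomial (Fin (max k l + 1)) ℝ,
    ∃ N A : MvPolynomial (Fin (max k l + 1)) ℝ, ∀ v, RegG n v →
      eval v A ≠ 0 ∧ eval v N = eval v A * eval (G^[n] v) P := by
  induction n with
  | zero => exact fun P => ⟨P, 1, fun v _ => by simp⟩
  | succ n ih =>
    intro P
    obtain ⟨s, N1, h1⟩ := clear_G P
    obtain ⟨N2, A2, h2⟩ := ih N1
    obtain ⟨N3, A3, h3⟩ := ih (X (i0 k l) * X (iD k l))
    refine ⟨N2 * A3 ^ s, A2 * N3 ^ s, fun v hv => ?_⟩
    have hv' : RegG n v := fun j hj => hv j (by omega)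
    obtain ⟨a2, b2⟩ := h2 v hv'
    obtain ⟨a3, b3⟩ := h3 v hv'
    have hD : G^[n] v (i0 k l) * G^[n] v (iD k l) ≠ 0 := hv n (by omega)
    rw [map_mul, eval_X, eval_X] at b3
    have hN3 : eval v N3 ≠ 0 := by rw [b3]; exact mul_ne_zero a3 hD
    have h4 := h1 _ hD
    rw [Function.iterate_succ_apply', map_mul, map_mul, map_pow, map_pow]
    refine ⟨mul_ne_zero a2 (pow_ne_zero _ hN3), ?_⟩
    rw [b2, h4, b3]
    ring

/-- `G` undoes `E` along good orbits. -/
lemma G_E_iter (hkl : k ≠ l) (n b : ℕ) {u : Fin (max k l + 1) → ℝ} (h : Good (n + b) u) :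
    G^[n] (E^[n + b] u) = E^[b] u ∧ RegG n (E^[n + b] u) := by
  induction n with
  | zero =>
    refine ⟨by simp, fun j hj => by omega⟩
  | succ n ih =>
    have e : n + 1 + b = (n + b) + 1 := by ring
    rw [e] at h ⊢
    have hGE : G (E^[n + b + 1] u) = E^[n + b] u := by
      rw [Function.iterate_succ_apply']
      exact GE hkl ((h.1.nz hkl).P hkl) h.2
    have hnz : ∀ i, E^[n + b + 1] u i ≠ 0 := by
      rw [Function.iterate_succ_apply']
      exact NZ_E hkl (h.1.nz hkl) h.2
    obtain ⟨h1, h2⟩ := ih h.1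
    refine ⟨?_, ?_⟩
    · rw [Function.iterate_succ_apply, hGE]
      exact h1
    · intro j hj
      cases j with
      | zero => exact mul_ne_zero (hnz _) (hnz _)
      | succ j =>
        rw [Function.iterate_succ_apply, hGE]
        exact h2 j (by omega)

/-- setting the last variable to zero -/
noncomputable def rest (P : MvPolynomial (Fin (max k l + 1)) ℝ) :
    MvPolynomial (Fin (max k l + 1)) ℝ :=
  aeval (fun i => if i = iL k l then (0 : MvPolynomial (Fin (max k l + 1)) ℝ) else X i) P

lemma eval_rest (c : Fin (max k l + 1) → ℝ) (P : MvPolynomial (Fin (max k l + 1)) ℝ) :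
    eval c (rest P) = eval (Function.update c (iL k l) 0) P := by
  unfold rest
  induction P using MvPolynomial.induction_on with
  | C a => simp
  | add p q hp hq => rw [map_add, map_add, hp, hq, map_add]
  | mul_X p i hp =>
    rw [map_mul, map_mul, hp, map_mul, aeval_X]
    congr 1
    by_cases hi : i = iL k l
    · rw [if_pos hi, hi]; simp
    · rw [if_neg hi, eval_X, eval_X, Function.update_of_ne hi]

lemma dvd_rest (P : MvPolynomial (Fin (max k l + 1)) ℝ) : X (iL k l) ∣ P - rest P := by
  unfold rest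
  induction P using MvPolynomial.induction_on with
  | C a => simp
  | add p q hp hq =>
    rw [map_add]
    have := dvd_add hp hq
    convert this using 1
    ring
  | mul_X p i hp =>
    rw [map_mul, aeval_X]
    by_cases hi : i = iL k l
    · rw [if_pos hi, hi, mul_zero, sub_zero]
      exact dvd_mul_left _ _
    · rw [if_neg hi, ← sub_mul]
      exact hp.mul_right _

lemma rest_zero {n : ℕ} (hkl : k ≠ l) {P : MvPolynomial (Fin (max k l + 1)) ℝ}
    (h : ∀ c ∈ Par k l n, eval (Function.update c (iL k l) 0) P = 0) : rest P = 0 :=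
  zero_of_open (Par_open n) (Par_ne hkl n) fun c hc => by
    rw [eval_rest]
    exact h c hc

lemma Van_mul {n : ℕ} (hkl : k ≠ l) {f g : MvPolynomial (Fin (max k l + 1)) ℝ}
    (h : Van n (f * g)) : Van n f ∨ Van n g := by
  obtain ⟨N1, A1, h1⟩ := clear_En n f
  obtain ⟨N2, A2, h2⟩ := clear_En n g
  have hz : rest N1 * rest N2 = 0 := by
    refine zero_of_open (Par_open n) (Par_ne hkl n) fun c hc => ?_
    rw [map_mul, eval_rest, eval_rest, (h1 _ hc.2).2, (h2 _ hc.2).2]
    have := h c hc.1 hc.2
    rw [map_mul] at this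
    rcases mul_eq_zero.1 this with h3 | h3 <;> rw [h3] <;> ring
  rcases mul_eq_zero.1 hz with h3 | h3
  · left
    intro c hc hG
    have h4 := eval_rest c N1
    rw [h3, map_zero, (h1 _ hG).2] at h4
    exact (mul_eq_zero.1 h4.symm).resolve_left (h1 _ hG).1
  · right
    intro c hc hG
    have h4 := eval_rest c N2
    rw [h3, map_zero, (h2 _ hG).2] at h4
    exact (mul_eq_zero.1 h4.symm).resolve_left (h2 _ hG).1

lemma RegG_pos (n : ℕ) {v : Fin (max k l + 1) → ℝ} (hv : v ∈ Q k l) :
    G^[n] v ∈ Q k l ∧ RegG n v := by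
  have h : ∀ n, G^[n] v ∈ Q k l := by
    intro n
    induction n with
    | zero => exact hv
    | succ n ih =>
      rw [Function.iterate_succ_apply']
      exact G_pos ih
  exact ⟨h n, fun j _ => (mul_pos (h j _) (h j _)).ne'⟩

/-- `E` undoes `G` on the positive orthant. -/
lemma E_G_iter (hkl : k ≠ l) (n : ℕ) : ∀ v ∈ Q k l,
    E^[n] (G^[n] v) = v ∧ Good n (G^[n] v) := by
  induction n with
  | zero => exact fun v hv => ⟨rfl, fun i _ => (hv i).ne'⟩
  | succ n ih =>
    intro v hv
    have h1 := ih (G v) (G_pos hv)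
    have hGs : G^[n + 1] v = G^[n] (G v) := Function.iterate_succ_apply G n v
    rw [hGs]
    obtain ⟨h2, h3⟩ := EG hkl (hv (i0 k l)).ne' (hv (iD k l)).ne'
    refine ⟨?_, h1.2, ?_⟩
    · rw [Function.iterate_succ_apply', h1.1]
      exact h2
    · rw [h1.1, h3]
      exact div_ne_zero (hv _).ne' (hv _).ne'

/-- the numerator of the last coordinate of `G^n` -/
lemma factor (hkl : k ≠ l) (n : ℕ) : ∃ Nn : MvPolynomial (Fin (max k l + 1)) ℝ,
    (∀ v, RegG n v → (eval v Nn = 0 ↔ G^[n] v (iL k l) = 0)) ∧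
    ∀ f, Van n f → ∃ A B : MvPolynomial (Fin (max k l + 1)) ℝ, f * A = Nn * B ∧
      ∀ c ∈ Par k l n, eval (E^[n] (Function.update c (iL k l) 0)) A ≠ 0 := by
  obtain ⟨Nn, An, hn⟩ := clear_Gn (k := k) (l := l) n (X (iL k l))
  refine ⟨Nn, fun v hv => ?_, fun f hf => ?_⟩
  · rw [(hn v hv).2, eval_X]
    constructor
    · intro h
      exact (mul_eq_zero.1 h).resolve_left (hn v hv).1
    · intro h
      rw [h, mul_zero]
  · obtain ⟨Nf, Af, hNf⟩ := clear_En n f
    have hr : rest Nf = 0 := rest_zero hkl (n := n) fun c hc => by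
      rw [(hNf _ hc.2).2, hf c hc.1 hc.2, mul_zero]
    obtain ⟨H, hH⟩ := dvd_rest Nf
    rw [hr, sub_zero] at hH
    obtain ⟨N1, A1, h1⟩ := clear_Gn (k := k) (l := l) n Af
    obtain ⟨N3, A3, h3⟩ := clear_Gn (k := k) (l := l) n H
    refine ⟨N1 * An * A3, N3 * A1, ?_, fun c hc => ?_⟩
    · -- identity on the positive orthant
      have hz : f * (N1 * An * A3) - Nn * (N3 * A1) = 0 := by
        refine zero_of_open Q_open Q_ne fun v hv => ?_
        obtain ⟨-, hreg⟩ := RegG_pos n hv
        obtain ⟨e1, e2⟩ := E_G_iter hkl n v hv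
        have k1 := (hNf _ e2).2
        rw [e1, hH, map_mul, eval_X] at k1
        simp only [map_sub, map_mul]
        rw [(h1 v hreg).2, (h3 v hreg).2, (hn v hreg).2, eval_X]
        linear_combination (- eval v A1 * eval v An * eval v A3) * k1
      exact sub_eq_zero.1 hz
    · obtain ⟨g1, g2⟩ := G_E_iter hkl n 0 (u := Function.update c (iL k l) 0) (by simpa using hc.2)
      simp only [add_zero, Function.iterate_zero, id] at g1 g2
      rw [map_mul, map_mul]
      refine mul_ne_zero (mul_ne_zero ?_ (hn _ g2).1) (h3 _ g2).1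
      rw [(h1 _ g2).2, g1]
      exact mul_ne_zero (h1 _ g2).1 (hNf _ hc.2).1

lemma irred_contra (hkl : k ≠ l) {h : MvPolynomial (Fin (max k l + 1)) ℝ} (hirr : Irreducible h)
    {n m : ℕ} (hnm : n < m) (hn : Van n h) (hm : Van m h) : False := by
  obtain ⟨Nn, hN, hfac⟩ := factor hkl n
  obtain ⟨A, B, hAB, hA⟩ := hfac h hn
  have hdvd : h ∣ Nn * B := ⟨A, hAB.symm⟩
  rcases hirr.prime.dvd_or_dvd hdvd with h1 | h1
  · obtain ⟨c, hc⟩ := Par_ne hkl m
    obtain ⟨q, hq⟩ := h1
    obtain ⟨b, rfl⟩ : ∃ b, m = n + (b + 1) := ⟨m - n - 1, by omega⟩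
    obtain ⟨g1, g2⟩ := G_E_iter hkl n (b + 1) hc.2
    have h2 : eval (E^[n + (b + 1)] (Function.update c (iL k l) 0)) Nn = 0 := by
      rw [hq, map_mul, hm c hc.1 hc.2, zero_mul]
    rw [hN _ g2, g1] at h2
    have hg : Good (b + 1) (Function.update c (iL k l) 0) := hc.2.mono (by omega)
    rw [Function.iterate_succ_apply'] at h2
    exact NZ_E hkl (hg.1.nz hkl) hg.2 _ h2
  · obtain ⟨B', hB'⟩ := h1
    have h2 : A = Nn * B' := by
      have h3 : h * A = h * (Nn * B') := by
        rw [hAB, hB']
        ring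
      exact mul_left_cancel₀ hirr.ne_zero h3
    obtain ⟨c, hc⟩ := Par_ne hkl n
    obtain ⟨g1, g2⟩ := G_E_iter hkl n 0 (u := Function.update c (iL k l) 0) (by simpa using hc.2)
    simp only [add_zero, Function.iterate_zero, id] at g1 g2
    have h4 := hA c hc
    rw [h2, map_mul] at h4
    refine h4 ?_
    have h5 : eval (E^[n] (Function.update c (iL k l) 0)) Nn = 0 := by
      rw [hN _ g2, g1, Function.update_self]
    rw [h5, zero_mul]

lemma Van_prod {n : ℕ} (hkl : k ≠ l) (s : Multiset (MvPolynomial (Fin (max k l + 1)) ℝ))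
    (h : Van n s.prod) : ∃ g ∈ s, Van n g := by
  induction s using Multiset.induction_on with
  | empty =>
    exfalso
    obtain ⟨c, hc⟩ := Par_ne hkl n
    have := h c hc.1 hc.2
    simp at this
  | cons a s ih =>
    rw [Multiset.prod_cons] at h
    rcases Van_mul hkl h with h1 | h1
    · exact ⟨a, Multiset.mem_cons_self _ _, h1⟩
    · obtain ⟨g, hg1, hg2⟩ := ih h1
      exact ⟨g, Multiset.mem_cons_of_mem hg1, hg2⟩

lemma zero_of_Van (hkl : k ≠ l) {f : MvPolynomial (Fin (max k l + 1)) ℝ}
    (h : ∀ n, ¬ Even n → Van n f) : f = 0 := by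
  by_contra hf
  obtain ⟨s, hs1, u, hu⟩ := WfDvdMonoid.exists_factors f hf
  have h1 : ∀ j : ℕ, ∃ g : MvPolynomial (Fin (max k l + 1)) ℝ, g ∈ s ∧ Van (2 * j + 1) g := by
    intro j
    have h2 := h (2 * j + 1) (Nat.not_even_iff_odd.2 (odd_two_mul_add_one j))
    have h3 : Van (2 * j + 1) s.prod := by
      intro c hc hG
      have h4 := h2 c hc hG
      rw [← hu, map_mul] at h4
      refine (mul_eq_zero.1 h4).resolve_right ?_
      exact (u.isUnit.map (eval _)).ne_zero
    obtain ⟨g, hg1, hg2⟩ := Van_prod hkl s h3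
    exact ⟨g, hg1, hg2⟩
  choose g hg1 hg2 using h1
  classical
  have hfin : Finite {x // x ∈ s.toFinset} := inferInstance
  obtain ⟨i, j, hij, hgij⟩ := Finite.exists_ne_map_eq_of_infinite
    (fun j : ℕ => (⟨g j, Multiset.mem_toFinset.2 (hg1 j)⟩ : {x // x ∈ s.toFinset}))
  have hg : g i = g j := congrArg Subtype.val hgij
  rcases Nat.lt_or_gt_of_ne hij with h5 | h5
  · refine irred_contra hkl (hs1 _ (hg1 i)) (show 2 * i + 1 < 2 * j + 1 by omega) (hg2 i) ?_
    rw [hg]
    exact hg2 j
  · refine irred_contra hkl (hs1 _ (hg1 j)) (show 2 * j + 1 < 2 * i + 1 by omega) (hg2 j) ?_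
    rw [← hg]
    exact hg2 i

/-! ### The relation coming from a polynomial that vanishes on the basin -/

lemma rel_exists {φ : (Fin (max k l + 1) → ℝ) → ℝ} (hpos : ∀ z ∈ Q k l, 0 < φ z)
    (hmem : ∀ z ∈ Q k l, scale k l (fun _ => φ z) z ∈ Basin k l)
    {P : MvPolynomial (Fin (max k l + 1)) ℝ} (hP : P ≠ 0) (h : ∀ v ∈ Basin k l, eval v P = 0) :
    ∃ (d : ℕ) (m : ℕ → MvPolynomial (Fin (max k l + 1)) ℝ), Rel φ d m ∧ m d ≠ 0 := by
  obtain ⟨s, N, hN⟩ := clear (fun i : Fin (max k l + 1) =>
    if Even ((i : ℕ) / gg k l) then X 0 * X 0 * X i.succ else X i.succ)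
    (X 0 : MvPolynomial (Fin (max k l + 1 + 1)) ℝ) P
  have hN' : ∀ (t : ℝ) (v : Fin (max k l + 1) → ℝ), t ≠ 0 →
      eval (Fin.cons t v : Fin (max k l + 1 + 1) → ℝ) N =
        t ^ s * eval (scale k l (fun _ => t) v) P := by
    intro t v ht
    have e1 : eval (Fin.cons t v : Fin (max k l + 1 + 1) → ℝ)
        (X 0 : MvPolynomial (Fin (max k l + 1 + 1)) ℝ) = t := by simp
    have := hN (Fin.cons t v) (by rw [e1]; exact ht)
    rw [e1] at this
    rw [this]
    congr 3
    funext i
    unfold scale
    by_cases he : Even ((i : ℕ) / gg k l)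
    · simp only [if_pos he, map_mul, eval_X, Fin.cons_zero, Fin.cons_succ]
      field_simp
    · simp only [if_neg he, eval_X, Fin.cons_succ]
  have hN0 : N ≠ 0 := by
    intro hN0
    apply hP
    refine MvPolynomial.funext fun v => ?_
    have h1 := hN' 1 v one_ne_zero
    have h2 : scale k l (fun _ => 1) v = v := by
      funext i
      unfold scale
      split_ifs <;> simp
    rw [h2, hN0, map_zero, one_pow, one_mul] at h1
    rw [map_zero]
    exact h1.symm
  set R := finSuccEquiv ℝ (max k l + 1) N with hR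
  have hR0 : R ≠ 0 := by
    rw [hR]
    exact (map_ne_zero_iff _ (finSuccEquiv ℝ (max k l + 1)).injective).2 hN0
  refine ⟨R.natDegree, fun i => R.coeff i, fun z hz => ?_, ?_⟩
  · have h1 : eval (Fin.cons (φ z) z : Fin (max k l + 1 + 1) → ℝ) N = 0 := by
      rw [hN' _ _ (hpos z hz).ne', h _ (hmem z hz), mul_zero]
    rw [eval_eq_eval_mv_eval', Polynomial.eval_map, Polynomial.eval₂_eq_sum_range] at h1
    exact h1
  · exact Polynomial.leadingCoeff_ne_zero.2 hR0

/-- Only the zero polynomial vanishes on the basin: coprime case. -/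
theorem zariski (hkl : k ≠ l) (hg : gg k l = 1)
    (hval : padicValNat 2 (k + 1) = padicValNat 2 (l + 1))
    {P : MvPolynomial (Fin (max k l + 1)) ℝ} (h : ∀ v ∈ Basin k l, eval v P = 0) : P = 0 := by
  by_contra hP
  obtain ⟨φ, hc, hpos, hfe, hmem, hlim⟩ := phi_exists hkl hg hval
  have hex : ∃ d, ∃ m : ℕ → MvPolynomial (Fin (max k l + 1)) ℝ, Rel φ d m ∧ m d ≠ 0 :=
    rel_exists hpos hmem hP h
  classical
  obtain ⟨m, hrel, hmd⟩ := Nat.find_spec hex
  set d := Nat.find hex with hd
  have hmin : ∀ d' < d, ∀ m', Rel φ d' m' → m' d' = 0 := by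
    intro d' hd' m' hm'
    by_contra hne
    exact Nat.find_min hex hd' ⟨m', hm', hne⟩
  have hm0 : m 0 ≠ 0 := by
    intro h0
    rcases Nat.eq_zero_or_pos d with hd0 | hd0
    · rw [hd0] at hmd
      exact hmd h0
    · have h1 : Rel φ (d - 1) fun i => m (i + 1) := by
        intro z hz
        have h2 := hrel z hz
        rw [Finset.sum_range_succ', h0, map_zero, zero_mul, add_zero] at h2
        have h4 : ∑ i ∈ Finset.range d, eval z (m (i + 1)) * φ z ^ (i + 1) =
            φ z * ∑ i ∈ Finset.range (d - 1 + 1), eval z (m (i + 1)) * φ z ^ i := by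
          rw [Nat.sub_add_cancel hd0, Finset.mul_sum]
          refine Finset.sum_congr rfl fun i _ => ?_
          ring
        rw [h4] at h2
        exact (mul_eq_zero.1 h2).resolve_left (hpos z hz).ne'
      have h2 := hmin (d - 1) (by omega) _ h1
      simp only [Nat.sub_add_cancel hd0] at h2
      exact hmd h2
  exact hm0 (zero_of_Van hkl fun n hn c hc' hG =>
    limit_zero hlim hn (claim hkl hc hpos hfe hrel hmin hm0 n) hc' hG)

/-! ### The general case -/

lemma max_scale {g K L : ℕ} (hk : k + 1 = g * (K + 1)) (hl : l + 1 = g * (L + 1)) :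
    max k l + 1 = g * (max K L + 1) := by
  rcases le_total K L with h | h
  · have h1 : g * (K + 1) ≤ g * (L + 1) := Nat.mul_le_mul_left _ (by omega)
    rw [max_eq_right h, ← hl]
    omega
  · have h1 : g * (L + 1) ≤ g * (K + 1) := Nat.mul_le_mul_left _ (by omega)
    rw [max_eq_left h, ← hk]
    omega

lemma idx_lt {g K L r j : ℕ} (hk : k + 1 = g * (K + 1)) (hl : l + 1 = g * (L + 1))
    (hr : r < g) (hj : j < max K L + 1) : r + g * j < max k l + 1 := by
  rw [max_scale hk hl]
  have h2 : g * (j + 1) ≤ g * (max K L + 1) := Nat.mul_le_mul_left _ (by omega)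
  have h3 : g * (j + 1) = g * j + g := by ring
  omega

/-- the entries of `v` in a residue class modulo `g` -/
def cls {g K L : ℕ} (hk : k + 1 = g * (K + 1)) (hl : l + 1 = g * (L + 1))
    (v : Fin (max k l + 1) → ℝ) (r : Fin g) : Fin (max K L + 1) → ℝ :=
  fun j => v ⟨r + g * j, idx_lt hk hl r.2 j.2⟩

lemma div_lt {g K L : ℕ} (hk : k + 1 = g * (K + 1)) (hl : l + 1 = g * (L + 1))
    (i : Fin (max k l + 1)) : (i : ℕ) / g < max K L + 1 := by
  have h := i.2
  have h2 := max_scale hk hl
  exact Nat.div_lt_of_lt_mul (by omega)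

lemma basin_of_cls {g K L : ℕ} (hg : 0 < g) (hk : k + 1 = g * (K + 1)) (hl : l + 1 = g * (L + 1))
    {v : Fin (max k l + 1) → ℝ}
    (h : ∀ r : Fin g, cls hk hl v r ∈ Basin K L) : v ∈ Basin k l := by
  have h1 : ∀ r : Fin g, ∃ x : ℕ → ℝ, (∀ i : Fin (max K L + 1), x i = cls hk hl v r i) ∧
      Solution K L x ∧ Tendsto x atTop (𝓝 √2) := fun r => (h r).2
  choose y hy1 hy2 hy3 using h1
  set rr : ℕ → Fin g := fun n => ⟨n % g, Nat.mod_lt _ hg⟩ with hrr
  have hv : ∀ i : Fin (max k l + 1), v i = cls hk hl v (rr i) ⟨(i : ℕ) / g, div_lt hk hl i⟩ := by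
    intro i
    unfold cls
    congr 1
    apply Fin.ext
    show (i : ℕ) = (i : ℕ) % g + g * ((i : ℕ) / g)
    exact (Nat.mod_add_div _ _).symm
  have hms := max_scale hk hl
  refine ⟨fun i => ?_, fun n => y (rr n) (n / g), fun i => ?_, fun n => ?_, ?_⟩
  · rw [hv]
    exact (h _).1 _
  · rw [hv]
    exact hy1 (rr i) ⟨(i : ℕ) / g, div_lt hk hl i⟩
  · obtain ⟨e, he⟩ : ∃ e, max K L = K + e := ⟨max K L - K, by omega⟩
    obtain ⟨f, hf⟩ : ∃ f, max K L = L + f := ⟨max K L - L, by omega⟩
    have q1 : g * (max K L + 1) = g * (K + 1) + g * e := by rw [he]; ring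
    have q2 : g * (max K L + 1) = g * (L + 1) + g * f := by rw [hf]; ring
    have e0 : n + max k l + 1 = n + g * (max K L + 1) := by omega
    have e1 : n + max k l - k = n + g * (max K L - K) := by
      have : max K L - K = e := by omega
      rw [this]
      omega
    have e2 : n + max k l - l = n + g * (max K L - L) := by
      have : max K L - L = f := by omega
      rw [this]
      omega
    rw [e0, e1, e2]
    have r0 : ∀ j, rr (n + g * j) = rr n := by
      intro j
      simp only [hrr, Nat.add_mul_mod_self_left]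
    show y (rr (n + g * (max K L + 1))) ((n + g * (max K L + 1)) / g) =
      1 / y (rr (n + g * (max K L - K))) ((n + g * (max K L - K)) / g) +
      1 / y (rr (n + g * (max K L - L))) ((n + g * (max K L - L)) / g)
    rw [r0, r0, r0, Nat.add_mul_div_left _ _ hg, Nat.add_mul_div_left _ _ hg,
      Nat.add_mul_div_left _ _ hg]
    have h5 := hy2 (rr n) (n / g)
    have f1 : n / g + max K L - K = n / g + (max K L - K) := Nat.add_sub_assoc (le_max_left _ _) _
    have f2 : n / g + max K L - L = n / g + (max K L - L) := Nat.add_sub_assoc (le_max_right _ _) _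
    rw [f1, f2] at h5
    exact h5
  · refine tendsto_of_residues hg fun r hr => ?_
    refine (hy3 ⟨r, hr⟩).congr fun j => ?_
    have r0 : rr (r + g * j) = ⟨r, hr⟩ := by
      apply Fin.ext
      simp only [hrr, Nat.add_mul_mod_self_left]
      exact Nat.mod_eq_of_lt hr
    rw [r0, Nat.add_mul_div_left _ _ hg, Nat.div_eq_of_lt hr, zero_add]

/-- Only the zero polynomial vanishes on the basin. -/
theorem zariski_all (hkl : k ≠ l) (hval : padicValNat 2 (k + 1) = padicValNat 2 (l + 1))
    {P : MvPolynomial (Fin (max k l + 1)) ℝ}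
    (h : ∀ v ∈ Basin k l, eval v P = 0) : P = 0 := by
  classical
  obtain ⟨a, b, ha, hb, hab, hka, hlb⟩ := setup k l
  obtain ⟨K, rfl⟩ : ∃ K, a = K + 1 := ⟨a - 1, by omega⟩
  obtain ⟨L, rfl⟩ : ∃ L, b = L + 1 := ⟨b - 1, by omega⟩
  have hodd : Odd (K + 1) ∧ Odd (L + 1) := by
    rw [hka, hlb] at hval
    exact (val_iff (gg_pos k l) ha hb hab).1 hval
  have hKLval : padicValNat 2 (K + 1) = padicValNat 2 (L + 1) := by
    have h1 := (val_iff (g := 1) le_rfl ha hb hab).2 hodd
    rwa [one_mul, one_mul] at h1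
  have hKL : K ≠ L := by
    rintro rfl
    apply hkl
    have : k + 1 = l + 1 := hka.trans hlb.symm
    omega
  have hg := gg_pos k l
  set g := gg k l with hgd
  have hz0 : ∀ {P : MvPolynomial (Fin (max K L + 1)) ℝ}, (∀ v ∈ Basin K L, eval v P = 0) → P = 0 :=
    fun h => zariski hKL hab hKLval h
  set rr : ℕ → Fin g := fun n => ⟨n % g, Nat.mod_lt _ hg⟩ with hrr
  have key : ∀ R : Finset (Fin g), ∀ v : Fin (max k l + 1) → ℝ,
      (∀ r ∉ R, cls hka hlb v r ∈ Basin K L) → eval v P = 0 := by
    intro R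
    induction R using Finset.induction_on with
    | empty => exact fun v hv => h v (basin_of_cls hg hka hlb fun r => hv r (by simp))
    | insert r0 R hr0 ih =>
      intro v hv
      -- replace the entries in the class `r0`
      set w : (Fin (max K L + 1) → ℝ) → Fin (max k l + 1) → ℝ := fun u i =>
        if rr i = r0 then u ⟨(i : ℕ) / g, div_lt hka hlb i⟩ else v i with hw
      have hcls0 : ∀ u, cls hka hlb (w u) r0 = u := by
        intro u
        funext j
        have e1 : rr (r0 + g * j) = r0 := by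
          apply Fin.ext
          simp only [hrr, Nat.add_mul_mod_self_left]
          exact Nat.mod_eq_of_lt r0.2
        have e2 : ((r0 : ℕ) + g * j) / g = j := by
          rw [Nat.add_mul_div_left _ _ hg, Nat.div_eq_of_lt r0.2, zero_add]
        simp only [cls, hw, e1, if_true, e2]
      have hcls1 : ∀ u r, r ≠ r0 → cls hka hlb (w u) r = cls hka hlb v r := by
        intro u r hr
        funext j
        have e1 : rr (r + g * j) = r := by
          apply Fin.ext
          simp only [hrr, Nat.add_mul_mod_self_left]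
          exact Nat.mod_eq_of_lt r.2
        simp only [cls, hw, e1, if_neg hr]
      set P' : MvPolynomial (Fin (max K L + 1)) ℝ := aeval (fun i : Fin (max k l + 1) =>
        if rr i = r0 then
          (X ⟨(i : ℕ) / g, div_lt hka hlb i⟩ : MvPolynomial (Fin (max K L + 1)) ℝ) else C (v i)) P
        with hP'
      have hev : ∀ u, eval u P' = eval (w u) P := by
        intro u
        have : (eval u).comp (aeval (fun i : Fin (max k l + 1) => if rr i = r0 then
            (X ⟨(i : ℕ) / g, div_lt hka hlb i⟩ : MvPolynomial (Fin (max K L + 1)) ℝ)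
            else C (v i)) : MvPolynomial (Fin (max k l + 1)) ℝ →ₐ[ℝ]
              MvPolynomial (Fin (max K L + 1)) ℝ).toRingHom = eval (w u) := by
          refine MvPolynomial.ringHom_ext (fun a => ?_) fun i => ?_
          · simp
          · simp only [hw]
            by_cases hi : rr i = r0
            · simp [hi]
            · simp [hi]
        rw [← this]
        rfl
      have hz : P' = 0 := by
        refine hz0 fun u hu => ?_
        rw [hev]
        refine ih (w u) fun r hr => ?_
        by_cases hr' : r = r0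
        · rw [hr', hcls0]
          exact hu
        · rw [hcls1 u r hr']
          exact hv r (by simp [hr', hr])
      have h2 := hev (cls hka hlb v r0)
      rw [hz, map_zero] at h2
      have h3 : w (cls hka hlb v r0) = v := by
        funext i
        simp only [hw]
        by_cases hi : rr i = r0
        · rw [if_pos hi, ← hi]
          unfold cls
          congr 1
          apply Fin.ext
          exact Nat.mod_add_div _ _
        · rw [if_neg hi]
      rw [h3] at h2
      exact h2.symm
  exact MvPolynomial.funext fun v => by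
    rw [map_zero]
    exact key Finset.univ v fun r hr => absurd (Finset.mem_univ r) hr

/-- A semialgebraic set: a finite union of sets, each given by finitely many polynomial equations
and strict polynomial inequalities. -/
def Semialgebraic {n : ℕ} (S : Set (Fin n → ℝ)) : Prop :=
  ∃ F : Finset (Finset (MvPolynomial (Fin n) ℝ) × Finset (MvPolynomial (Fin n) ℝ)),
    ∀ v : Fin n → ℝ, v ∈ S ↔ ∃ p ∈ F, (∀ f ∈ p.1, eval v f = 0) ∧ ∀ f ∈ p.2, 0 < eval v f

/-- The basin has empty interior. -/
lemma no_open (hval : padicValNat 2 (k + 1) = padicValNat 2 (l + 1))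
    {U : Set (Fin (max k l + 1) → ℝ)} (hU : IsOpen U) (h : U ⊆ Basin k l) : U = ∅ := by
  by_contra hne
  obtain ⟨v, hv⟩ := Set.nonempty_iff_ne_empty.2 hne
  have hvB := h hv
  obtain ⟨ρ, -, huniq⟩ := ((basin_structure k l).2 hval).1 v hvB.1
  have hcont : Tendsto (fun r : ℝ => scale k l (fun _ => r) v) (𝓝 1)
      (𝓝 (scale k l (fun _ => 1) v)) := by
    refine tendsto_pi_nhds.2 fun i => ?_
    unfold scale
    by_cases he : Even ((i : ℕ) / gg k l)
    · simp only [if_pos he]
      exact tendsto_id.mul_const _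
    · simp only [if_neg he]
      exact tendsto_const_nhds.div tendsto_id one_ne_zero
  have h1 : scale k l (fun _ => 1) v = v := by
    funext i
    unfold scale
    split_ifs <;> simp
  rw [h1] at hcont
  have h2 : ∀ᶠ r : ℝ in 𝓝 1, scale k l (fun _ => r) v ∈ U := hcont.eventually (hU.mem_nhds hv)
  have h3 : ∀ᶠ r : ℝ in 𝓝[>] 1, scale k l (fun _ => r) v ∈ U :=
    h2.filter_mono nhdsWithin_le_nhds
  obtain ⟨r, hr1, hr2⟩ := (h3.and self_mem_nhdsWithin).exists
  have hr3 : (1 : ℝ) < r := hr2
  have k1 := huniq (fun _ => 1) ⟨fun _ => one_pos, by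
    have : scale k l (fun _ => (1 : ℝ)) v ∈ Basin k l := by rw [h1]; exact hvB
    exact this⟩
  have k2 := huniq (fun _ => r) ⟨fun _ => by linarith, h hr1⟩
  have k3 : (1 : ℝ) = r := congrFun (k1.trans k2.symm) ⟨0, gg_pos k l⟩
  linarith

/-- If `k ≠ l` and `k + 1`, `l + 1` are divisible by the same powers of `2`, the basin of `√2` is
Zariski dense and not semialgebraic. -/
theorem main (k l : ℕ) (hkl : k ≠ l)
    (hval : padicValNat 2 (k + 1) = padicValNat 2 (l + 1)) :
    (∀ P : MvPolynomial (Fin (max k l + 1)) ℝ, (∀ v ∈ Basin k l, eval v P = 0) → P = 0) ∧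
    ¬ Semialgebraic (Basin k l) := by
  refine ⟨fun P h => zariski_all hkl hval h, ?_⟩
  rintro ⟨F, hF⟩
  classical
  -- choose a nonzero equation in every nonempty piece
  have hchoose : ∀ p : Finset (MvPolynomial (Fin (max k l + 1)) ℝ) ×
      Finset (MvPolynomial (Fin (max k l + 1)) ℝ),
      ∃ f : MvPolynomial (Fin (max k l + 1)) ℝ, p ∈ F →
        f ≠ 0 ∧ ∀ v, (∀ f ∈ p.1, eval v f = 0) → (∀ f ∈ p.2, 0 < eval v f) → eval v f = 0 := by
    intro p
    by_cases hex : ∃ f ∈ p.1, f ≠ 0
    · obtain ⟨f, hf, hf0⟩ := hex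
      exact ⟨f, fun _ => ⟨hf0, fun v hv _ => hv f hf⟩⟩
    · push Not at hex
      refine ⟨1, fun hp => ⟨one_ne_zero, fun v hv1 hv2 => ?_⟩⟩
      exfalso
      set U : Set (Fin (max k l + 1) → ℝ) := ⋂ f ∈ p.2, {v | 0 < eval v f} with hU
      have hUo : IsOpen U := by
        refine isOpen_biInter_finset fun f _ => ?_
        exact isOpen_lt continuous_const (MvPolynomial.continuous_eval f)
      have hUB : U ⊆ Basin k l := by
        intro w hw
        refine (hF w).2 ⟨p, hp, fun f hf => by rw [hex f hf, map_zero], fun f hf => ?_⟩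
        exact Set.mem_iInter₂.1 hw f hf
      have hUe := no_open hval hUo hUB
      have : v ∈ U := Set.mem_iInter₂.2 fun f hf => hv2 f hf
      rw [hUe] at this
      exact this
  choose g hg using hchoose
  have hprod : (∏ p ∈ F, g p) = 0 := by
    refine zariski_all hkl hval fun v hv => ?_
    obtain ⟨p, hp, h1, h2⟩ := (hF v).1 hv
    rw [map_prod]
    exact Finset.prod_eq_zero hp ((hg p hp).2 v h1 h2)
  rw [Finset.prod_eq_zero_iff] at hprod
  obtain ⟨p, hp, h0⟩ := hprod
  exact (hg p hp).1 h0

/-- The case `k = l`. -/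
lemma basin_self (k : ℕ) : Basin k k = {fun _ => √2} := by
  have hs2 : (0 : ℝ) < √2 := by positivity
  have hsq : √2 * √2 = (2 : ℝ) := Real.mul_self_sqrt (by norm_num)
  ext v
  constructor
  · rintro ⟨hv, x, hx0, hx, hlim⟩
    have hM : max k k = k := max_self k
    have hpos : ∀ n, 0 < x n := hx.pos fun i hi => by
      have := hx0 ⟨i, by omega⟩
      simp only at this
      rw [this]
      exact hv _
    have h1 : ∀ n, x (n + (k + 1)) = 2 / x n := by
      intro n
      have h := hx n
      have e0 : n + max k k + 1 = n + (k + 1) := by omega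
      have e1 : n + max k k - k = n := by omega
      rw [e0, e1] at h
      rw [h]
      ring
    have h2 : ∀ n, x (n + 2 * (k + 1)) = x n := by
      intro n
      have e : n + 2 * (k + 1) = n + (k + 1) + (k + 1) := by ring
      rw [e, h1, h1]
      have := (hpos n).ne'
      field_simp
    have h3 : ∀ n j, x (n + 2 * (k + 1) * j) = x n := by
      intro n j
      induction j with
      | zero => simp
      | succ j ih =>
        have e : n + 2 * (k + 1) * (j + 1) = n + 2 * (k + 1) * j + 2 * (k + 1) := by ring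
        rw [e, h2, ih]
    have h4 : ∀ n, x n = √2 := by
      intro n
      have h5 : Tendsto (fun j : ℕ => n + 2 * (k + 1) * j) atTop atTop :=
        tendsto_atTop_mono (fun j => by
          simp only [id]
          nlinarith [Nat.zero_le n, Nat.zero_le (k * j)]) tendsto_id
      have h6 := hlim.comp h5
      have h7 : Tendsto (fun _ : ℕ => x n) atTop (𝓝 √2) := h6.congr fun j => h3 n j
      exact tendsto_nhds_unique tendsto_const_nhds h7
    show v = fun _ => √2
    funext i
    rw [← hx0 i, h4]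
  · intro h
    have h' : v = fun _ => √2 := h
    rw [h']
    refine ⟨fun _ => hs2, fun _ => √2, fun _ => rfl, fun n => ?_, tendsto_const_nhds⟩
    show √2 = 1 / √2 + 1 / √2
    field_simp
    linarith

/-- The basin of `√2` for `x_{n+1} = 1/x_{n-k} + 1/x_{n-l}`: it is the whole positive orthant if
`k + 1` and `l + 1` have different `2`-adic valuations, the point `(√2, …, √2)` if `k = l`, and in all
other cases it is Zariski dense, has empty interior and is not semialgebraic. -/
theorem result (k l : ℕ) :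
    (padicValNat 2 (k + 1) ≠ padicValNat 2 (l + 1) → Basin k l = {v | ∀ i, 0 < v i}) ∧
    (k = l → Basin k l = {fun _ => √2}) ∧
    (padicValNat 2 (k + 1) = padicValNat 2 (l + 1) → k ≠ l →
      interior (Basin k l) = ∅ ∧
      (∀ P : MvPolynomial (Fin (max k l + 1)) ℝ, (∀ v ∈ Basin k l, eval v P = 0) → P = 0) ∧
      ¬ Semialgebraic (Basin k l)) := by
  refine ⟨(basin_structure k l).1.2, ?_, fun hval hkl => ⟨?_, main k l hkl hval⟩⟩
  · rintro rfl
    exact basin_self k
  · exact no_open hval isOpen_interior interior_subset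

end Pool.Agent.Results.MP_247194_an.NoPolynomialDescription
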